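import Mathlib
import Pool.Agent.Work.MP_8efaaa_nt.Rf.Defs

/-!
# Definitions of the block Rg (fixed file): the group of all odd ideals
-/

set_option autoImplicit false

namespace Pool.Agent.Work.MP_8efaaa_nt.Rg

open NumberField Pool.Agent.Work.MP_8efaaa_nt.R Pool.Agent.Work.MP_8efaaa_nt.Rf

universe u

variable {K : Type u} [Field K] [NumberField K]

/-- `A` is the group of the ideals of odd norm modulo the good principal ideals -/
structure ADt (s : K) (A : Type*) [CommGroup A] (g : Ideal (𝓞 K) → A) : Prop where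
  surj : ∀ x : A, ∃ c : Ideal (𝓞 K), OddI c ∧ g c = x
  mul : ∀ b c : Ideal (𝓞 K), OddI b → OddI c → g (b * c) = g b * g c
  eq_iff : ∀ b c : Ideal (𝓞 K), OddI b → OddI c →
    (g b = g c ↔ ∃ α β : 𝓞 K, Good s α ∧ Good s β ∧
      Ideal.span {α} * b = Ideal.span {β} * c)

/-- the divisors of `a` that are `1` modulo `8` -/
def dv (a : ℕ) : Finset ℕ := a.divisors.filter (fun d => d % 8 = 1)

end Pool.Agent.Work.MP_8efaaa_nt.Rg
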