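import Mathlib
import Pool.Agent.Work.MP_8efaaa_nt.Rg.Defs
import Pool.Agent.Work.MP_8efaaa_nt.Rf.GdEl
import Pool.Agent.Work.MP_8efaaa_nt.Rf.GTwo

/-!
# Module ANu: the norm modulo `8` on the group of the odd ideals

`a_norm`: if `g b = g c` then `(α) b = (β) c` with good `α, β` and `N α = N β = 1` modulo `8` (`Good.t4`,
`T4.norm`), so `N b = N c` modulo `8`. Define `ν (g c) = N c` (for instance `ν x` is the unit of `N c`, `c` chosen
with `surj`), it is multiplicative because `N` is.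
`a_incl`: `ι (g0 c) = g c` for `N c = 1` modulo `8`: well defined and injective as `eq_iff` is the same
condition for both groups; multiplicative. (Define `ι x = g c` with `c` chosen by `surj` of `G`.) The kernel of `ν`
is the range of `ι`: `ν (g c) = 1` means `N c % 8 = 1`.
`a_top`: `g ⊤ = 1` (from `mul` with `⊤ * ⊤ = ⊤`).
`a_pow`: induction. `a_good`: `g (δ) = g ⊤ = 1` (`eq_iff` with `1` and `δ`, `1` is good by `good_nat`; the norm of `δ` is
`1` modulo `8`). `a_t4`: `T4.good_or`: `δ` good: `a_good`; `3 δ` good gives `g (3) * g (δ) = 1`, and `g (3) ^ 2 = g (9) = 1` (`good_nat`), so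
`g (δ) = g (3)`.
-/

set_option autoImplicit false

namespace Pool.Agent.Work.MP_8efaaa_nt.Rg

open NumberField Pool.Agent.Work.MP_8efaaa_nt.R Pool.Agent.Work.MP_8efaaa_nt.Rf

universe u

variable {K : Type u} [Field K] [NumberField K] {a : ℕ} {s : K}

private theorem anu_odd_top : OddI (⊤ : Ideal (𝓞 K)) := by
  unfold OddI
  rw [Ideal.absNorm_top]
  exact odd_one

private theorem anu_odd_mul {b c : Ideal (𝓞 K)} (hb : OddI b) (hc : OddI c) : OddI (b * c) := by
  unfold OddI at *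
  rw [map_mul]
  exact hb.mul hc

private theorem anu_odd_of8 {c : Ideal (𝓞 K)} (hc : Ideal.absNorm c % 8 = 1) : OddI c := by
  unfold OddI
  rw [Nat.odd_iff]
  omega

theorem a_top {A : Type*} [CommGroup A] {g : Ideal (𝓞 K) → A} (h : ADt s A g) : g ⊤ = 1 := by
  have h1 := h.mul ⊤ ⊤ anu_odd_top anu_odd_top
  rw [Ideal.mul_top] at h1
  exact (mul_eq_left.mp h1.symm)

theorem a_pow {A : Type*} [CommGroup A] {g : Ideal (𝓞 K) → A} (h : ADt s A g)
    {c : Ideal (𝓞 K)} (hc : OddI c) (j : ℕ) : OddI (c ^ j) ∧ g (c ^ j) = g c ^ j := by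
  induction j with
  | zero =>
    rw [pow_zero, pow_zero, Ideal.one_eq_top]
    exact ⟨anu_odd_top, a_top h⟩
  | succ j ih =>
    rw [pow_succ, pow_succ]
    exact ⟨anu_odd_mul ih.1 hc, by rw [h.mul _ _ ih.1 hc, ih.2]⟩

theorem a_good (hb : Base5 K a s) {A : Type*} [CommGroup A] {g : Ideal (𝓞 K) → A}
    (h : ADt s A g) {δ : 𝓞 K} (hδ : Good s δ) : g (Ideal.span {δ}) = 1 := by
  have ho : OddI (Ideal.span {δ}) := anu_odd_of8 (hδ.t4.norm hb)
  rw [← a_top h, h.eq_iff _ _ ho anu_odd_top]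
  refine ⟨((1 : ℕ) : 𝓞 K), δ, good_nat s (Or.inl rfl), hδ, ?_⟩
  rw [Ideal.mul_top, Nat.cast_one, Ideal.span_singleton_mul_span_singleton, one_mul]

theorem a_t4 (hb : Base5 K a s) {A : Type*} [CommGroup A] {g : Ideal (𝓞 K) → A} (h : ADt s A g)
    {δ : 𝓞 K} (hδ : T4 s δ) :
    g (Ideal.span {δ}) = 1 ∨ g (Ideal.span {δ}) = g (Ideal.span {(3 : 𝓞 K)}) := by
  rcases hδ.good_or hb with h1 | h1
  · exact Or.inl (a_good hb h h1)
  · right
    have ho : OddI (Ideal.span {δ}) := anu_odd_of8 (hδ.norm hb)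
    have ho3 : OddI (Ideal.span {(3 : 𝓞 K)}) := by
      have := (t4_nat s (m := 3) (by decide)).norm hb
      apply anu_odd_of8
      simpa using this
    have h2 := a_good hb h h1
    rw [← Ideal.span_singleton_mul_span_singleton, h.mul _ _ ho3 ho] at h2
    have h9 : Good s ((3 : 𝓞 K) * 3) := by
      have := good_nat s (m := 9) (Or.inl rfl)
      have e : ((3 : 𝓞 K) * 3) = ((9 : ℕ) : 𝓞 K) := by norm_num
      rw [e]
      exact this
    have h3 := a_good hb h h9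
    rw [← Ideal.span_singleton_mul_span_singleton, h.mul _ _ ho3 ho3] at h3
    rw [← h3] at h2
    exact mul_left_cancel h2

private theorem anu_norm_eq (hb : Base5 K a s) {A : Type*} [CommGroup A] {g : Ideal (𝓞 K) → A}
    (h : ADt s A g) {b c : Ideal (𝓞 K)} (ho : OddI b) (hc : OddI c) (hg : g b = g c) :
    (Ideal.absNorm b : ZMod 8) = (Ideal.absNorm c : ZMod 8) := by
  rw [h.eq_iff _ _ ho hc] at hg
  obtain ⟨α, β, hα, hβ, e⟩ := hg
  have h1 := congrArg Ideal.absNorm e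
  rw [map_mul, map_mul] at h1
  have h2 := congrArg (Nat.cast : ℕ → ZMod 8) h1
  rw [Nat.cast_mul, Nat.cast_mul] at h2
  have ha : (Ideal.absNorm (Ideal.span {α}) : ZMod 8) = 1 := by
    have := hα.t4.norm hb
    have h3 : (Ideal.absNorm (Ideal.span {α}) : ZMod 8) = ((1 : ℕ) : ZMod 8) :=
      (ZMod.natCast_eq_natCast_iff' _ _ _).2 (by rw [this])
    rw [h3, Nat.cast_one]
  have hb' : (Ideal.absNorm (Ideal.span {β}) : ZMod 8) = 1 := by
    have := hβ.t4.norm hb
    have h3 : (Ideal.absNorm (Ideal.span {β}) : ZMod 8) = ((1 : ℕ) : ZMod 8) :=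
      (ZMod.natCast_eq_natCast_iff' _ _ _).2 (by rw [this])
    rw [h3, Nat.cast_one]
  rw [ha, hb', one_mul, one_mul] at h2
  exact h2

private theorem anu_cop {c : Ideal (𝓞 K)} (hc : OddI c) : Nat.Coprime (Ideal.absNorm c) 8 := by
  unfold OddI at hc
  have h8 : 8 = 2 ^ 3 := by norm_num
  rw [h8]
  exact Nat.Coprime.pow_right 3 hc.coprime_two_right

theorem a_norm (hb : Base5 K a s) {A : Type*} [CommGroup A] {g : Ideal (𝓞 K) → A}
    (h : ADt s A g) :
    ∃ ν : A →* (ZMod 8)ˣ, ∀ c : Ideal (𝓞 K), OddI c →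
      ((ν (g c) : (ZMod 8)ˣ) : ZMod 8) = (Ideal.absNorm c : ZMod 8) := by
  choose C hC hg using h.surj
  refine ⟨MonoidHom.mk' (fun x => ZMod.unitOfCoprime (Ideal.absNorm (C x)) (anu_cop (hC x))) ?_, ?_⟩
  · intro x y
    apply Units.ext
    rw [Units.val_mul]
    simp only [ZMod.coe_unitOfCoprime]
    rw [← Nat.cast_mul, ← map_mul]
    apply anu_norm_eq hb h (hC _) (anu_odd_mul (hC x) (hC y))
    rw [hg, h.mul _ _ (hC x) (hC y), hg, hg]
  · intro c hc
    simp only [MonoidHom.mk'_apply, ZMod.coe_unitOfCoprime]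
    exact anu_norm_eq hb h (hC _) hc (hg _)

theorem a_incl (hb : Base5 K a s) {A : Type*} [CommGroup A] {g : Ideal (𝓞 K) → A}
    (h : ADt s A g) {G : Type*} [CommGroup G] {g0 : Ideal (𝓞 K) → G} (h0 : GDt s G g0) :
    ∃ ι : G →* A, Function.Injective ι ∧
      (∀ c : Ideal (𝓞 K), Ideal.absNorm c % 8 = 1 → ι (g0 c) = g c) := by
  choose C hC hg using h0.surj
  have key : ∀ b c : Ideal (𝓞 K), Ideal.absNorm b % 8 = 1 → Ideal.absNorm c % 8 = 1 →
      (g0 b = g0 c ↔ g b = g c) := by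
    intro b c h1 h2
    rw [h0.eq_iff _ _ h1 h2, h.eq_iff _ _ (anu_odd_of8 h1) (anu_odd_of8 h2)]
  have hm : ∀ b c : Ideal (𝓞 K), Ideal.absNorm b % 8 = 1 → Ideal.absNorm c % 8 = 1 →
      Ideal.absNorm (b * c) % 8 = 1 := by
    intro b c h1 h2
    rw [map_mul, Nat.mul_mod, h1, h2]
  refine ⟨MonoidHom.mk' (fun x => g (C x)) ?_, ?_, ?_⟩
  · intro x y
    rw [← h.mul _ _ (anu_odd_of8 (hC x)) (anu_odd_of8 (hC y)), ← key _ _ (hC _) (hm _ _ (hC x) (hC y)),
      h0.mul _ _ (hC x) (hC y), hg, hg, hg]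
  · intro x y hxy
    simp only [MonoidHom.mk'_apply] at hxy
    rw [← key _ _ (hC x) (hC y), hg, hg] at hxy
    exact hxy
  · intro c hc
    simp only [MonoidHom.mk'_apply]
    rw [← key _ _ (hC _) hc, hg]

end Pool.Agent.Work.MP_8efaaa_nt.Rg
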