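import Mathlib
import Pool.Agent.Work.MP_8efaaa_nt.Rg.Defs
import Pool.Agent.Work.MP_8efaaa_nt.Rg.ANu
import Pool.Agent.Work.MP_8efaaa_nt.Rf.Gd
import Pool.Agent.Work.MP_8efaaa_nt.Rf.Card

/-!
# Module ACard: the order of the group of the odd ideals is `8 h`

`G, g0` from `exists_gd`, of order `2 h` (`card_gd`). `ν` from `a_norm`, `ι` from `a_incl`. The kernel of `ν` is
the range of `ι` (`x = g c`, `ν x = 1` means `N c = 1` modulo `8`; conversely clear), of order `2 h`. The image of `ν`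
is everything (`4` elements): `(ZMod 8)ˣ` is generated by `5` and any of `3, 7`; `5` is the norm of `(S)` (norm
`a`), i.e. of `1 + 2 S` (norm `1 + 4 a`, which is `5` modulo `8`), and `(1 + a) / 2`, which is `3` modulo `4`, is the
norm of the odd ideal `m` with `(1 + S) = P2 m`: for instance the ideal `span {((1 + a) / 2), 1 + S}`, or:
`1 + S ∈ P2` (`Q5.P2`, `R/RInt.lean`, norm `2`), so `P2 ∣ span {1 + S}`, `span {1 + S} = P2 * m`, norms:
`1 + a = 2 * N m`. So `|A| = 2 h * 4`.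
-/

set_option autoImplicit false

namespace Pool.Agent.Work.MP_8efaaa_nt.Rg

open NumberField Pool.Agent.Work.MP_8efaaa_nt.R Pool.Agent.Work.MP_8efaaa_nt.Rf

universe u

variable {K : Type u} [Field K] [NumberField K] {a : ℕ} {s : K}

private theorem exists_three (hb : Base5 K a s) :
    ∃ m : Ideal (𝓞 K), Ideal.absNorm m % 8 = 3 ∨ Ideal.absNorm m % 8 = 7 := by
  obtain ⟨S, -, hQ⟩ := exists_Q5 hb
  have h1 : Ideal.span {1 + S} ≤ Q5.P2 S := by
    rw [Ideal.span_singleton_le_iff_mem]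
    exact Q5.one_add_mem_p2
  obtain ⟨m, hm⟩ := Ideal.dvd_iff_le.2 h1
  refine ⟨m, ?_⟩
  have h2 := congrArg Ideal.absNorm hm
  rw [map_mul, hQ.norm_p2] at h2
  have h3 := hQ.norm_gen 1 1
  have e : ((1 : ℤ) : 𝓞 K) + ((1 : ℤ) : 𝓞 K) * S = 1 + S := by push_cast; ring
  rw [e, h2] at h3
  have := hb.mod
  push_cast at h3
  omega

private theorem exists_five (hb : Base5 K a s) :
    ∃ m : Ideal (𝓞 K), Ideal.absNorm m % 8 = 5 := by
  obtain ⟨S, -, hQ⟩ := exists_Q5 hb
  refine ⟨Ideal.span {(1 : 𝓞 K) + 2 * S}, ?_⟩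
  have h1 := hQ.norm_gen 1 2
  have e : ((1 : ℤ) : 𝓞 K) + ((2 : ℤ) : 𝓞 K) * S = 1 + 2 * S := by push_cast; ring
  rw [e] at h1
  have := hb.mod
  omega

theorem card_ad (hb : Base5 K a s) {A : Type*} [CommGroup A] {g : Ideal (𝓞 K) → A}
    (h : ADt s A g) :
    Finite A ∧ Nat.card A = 8 * Fintype.card (ClassGroup (𝓞 K)) := by
  classical
  obtain ⟨G, _, g0, h0⟩ := exists_gd hb
  obtain ⟨hfin, hcard⟩ := card_gd hb h0
  obtain ⟨ν, hν⟩ := a_norm hb h
  obtain ⟨ι, hι, hιg⟩ := a_incl hb h h0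
  have hval : ∀ (c : Ideal (𝓞 K)) (r : ℕ), OddI c → Ideal.absNorm c % 8 = r →
      ((ν (g c) : (ZMod 8)ˣ) : ZMod 8) = (r : ZMod 8) := by
    intro c r hc hr
    rw [hν c hc, ← hr, ZMod.natCast_mod]
  have hker : ν.ker = ι.range := by
    ext x
    constructor
    · intro hx
      rw [MonoidHom.mem_ker] at hx
      obtain ⟨c, hc, rfl⟩ := h.surj x
      have h1 := hν c hc
      rw [hx, Units.val_one] at h1
      have h2 : Ideal.absNorm c % 8 = 1 := by
        have h3 : ((1 : ℕ) : ZMod 8) = ((Ideal.absNorm c : ℕ) : ZMod 8) := by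
          rw [Nat.cast_one]; exact h1
        rw [ZMod.natCast_eq_natCast_iff'] at h3
        omega
      exact ⟨g0 c, hιg c h2⟩
    · rintro ⟨y, rfl⟩
      obtain ⟨c, hc, rfl⟩ := h0.surj y
      have hco : OddI c := by
        unfold OddI
        rw [Nat.odd_iff]
        omega
      rw [MonoidHom.mem_ker, hιg c hc]
      apply Units.ext
      rw [hval c 1 hco hc, Nat.cast_one, Units.val_one]
  have hck : Nat.card ν.ker = 2 * Fintype.card (ClassGroup (𝓞 K)) := by
    rw [hker, ← hcard]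
    exact Nat.card_congr (MonoidHom.ofInjective hι).toEquiv.symm
  have hsurj : Function.Surjective ν := by
    obtain ⟨m3, hm3⟩ := exists_three hb
    obtain ⟨m5, hm5⟩ := exists_five hb
    have hm3o : OddI m3 := by
      unfold OddI
      rw [Nat.odd_iff]
      omega
    have hm5o : OddI m5 := by
      unfold OddI
      rw [Nat.odd_iff]
      omega
    have hmo : OddI (m3 * m5) := hm3o.mul hm5o
    have htop : OddI (⊤ : Ideal (𝓞 K)) := by
      unfold OddI
      rw [Ideal.absNorm_top]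
      exact odd_one
    intro u
    have hu : (u : ZMod 8) = 1 ∨ (u : ZMod 8) = 3 ∨ (u : ZMod 8) = 5 ∨ (u : ZMod 8) = 7 := by
      revert u
      decide
    rcases hu with hu | hu | hu | hu
    · exact ⟨g ⊤, Units.ext (by rw [hval ⊤ 1 htop (by rw [Ideal.absNorm_top]), hu, Nat.cast_one])⟩
    · rcases hm3 with h3 | h3
      · exact ⟨g m3, Units.ext (by rw [hval m3 3 hm3o h3, hu]; rfl)⟩
      · refine ⟨g (m3 * m5), Units.ext ?_⟩
        rw [hval (m3 * m5) 3 hmo (by rw [map_mul, Nat.mul_mod, h3, hm5]), hu]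
        rfl
    · exact ⟨g m5, Units.ext (by rw [hval m5 5 hm5o hm5, hu]; rfl)⟩
    · rcases hm3 with h3 | h3
      · refine ⟨g (m3 * m5), Units.ext ?_⟩
        rw [hval (m3 * m5) 7 hmo (by rw [map_mul, Nat.mul_mod, h3, hm5]), hu]
        rfl
      · exact ⟨g m3, Units.ext (by rw [hval m3 7 hm3o h3, hu]; rfl)⟩
  have hrange : Nat.card ν.range = 4 := by
    rw [MonoidHom.range_eq_top.2 hsurj, Nat.card_congr (Subgroup.topEquiv (G := (ZMod 8)ˣ)).toEquiv,
      Nat.card_eq_fintype_card, ZMod.card_units_eq_totient]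
    decide
  have hmul := ν.ker.card_mul_index
  rw [Subgroup.index_ker, hck, hrange] at hmul
  have hA : Nat.card A = 8 * Fintype.card (ClassGroup (𝓞 K)) := by omega
  refine ⟨?_, hA⟩
  apply Nat.finite_of_card_ne_zero
  rw [hA]
  have : 0 < Fintype.card (ClassGroup (𝓞 K)) := Fintype.card_pos
  omega

end Pool.Agent.Work.MP_8efaaa_nt.Rg
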