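import Mathlib
import Pool.Agent.Work.MP_8efaaa_nt.Rg.Defs
import Pool.Agent.Work.MP_8efaaa_nt.Rf.GdEl
import Pool.Agent.Work.MP_8efaaa_nt.Rf.Cj
import Pool.Agent.Work.MP_8efaaa_nt.Rf.Ram
import Pool.Agent.Work.MP_8efaaa_nt.Rf.Conic

/-!
# Module ACon: the conic

`a = d e`, `b` odd, `(α) rI S d = (β) b ^ 2` with `T4` elements `α, β`. Let `z = N b`, `b' = σ b`: multiply by
`b' ^ 2`: `(α) rI S d b' ^ 2 = (β z ^ 2)`, so `α θ = β z ^ 2` with `(θ) = rI S d b' ^ 2` (up to a unit, `θ` chosen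
as the quotient), `θ ∈ rI S d`, `θ = d x + y S` (`rI_mem`), norms: `d ^ 2 x ^ 2 + a y ^ 2 = N θ = d z ^ 2`, i.e.
`d x ^ 2 + e y ^ 2 = z ^ 2`, `z ≠ 0`. Let `g = gcd (x, y)` (positive): `g ^ 2 ∣ z ^ 2`, divide by `g`: coprime `x, y`.
See `Rf/Conic.lean`: `exists_theta`, `conic_pt` (private there, copy what is needed).
-/

set_option autoImplicit false

namespace Pool.Agent.Work.MP_8efaaa_nt.Rg

open NumberField Pool.Agent.Work.MP_8efaaa_nt.R Pool.Agent.Work.MP_8efaaa_nt.Rf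

universe u

variable {K : Type u} [Field K] [NumberField K] {a : ℕ} {s : K} {S : 𝓞 K}

private theorem q5_of (hb : Base5 K a s) (hS : algebraMap (𝓞 K) K S = s) : Q5 K a S := by
  obtain ⟨S', h1, h2⟩ := exists_Q5 hb
  have h3 : S' = S := RingOfIntegers.ext (h1.trans hS.symm)
  rwa [h3] at h2

/-- the generator of `rI S d * b ^ 2` -/
private theorem exists_theta (hb : Base5 K a s) (hS : algebraMap (𝓞 K) K S = s) {d : ℕ}
    (hda : d ∣ a) {b : Ideal (𝓞 K)} {α β : 𝓞 K} (hβ : T4 s β)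
    (h : Ideal.span {α} * rI S d = Ideal.span {β} * b ^ 2) :
    ∃ θ : 𝓞 K, Ideal.span {θ} = rI S d * b ^ 2 := by
  have h5 : Ideal.span {α * (d : 𝓞 K)} = Ideal.span {β} * (rI S d * b ^ 2) := by
    rw [← Ideal.span_singleton_mul_span_singleton, ← rI_sq hb hS hda, ← mul_assoc, h]
    ring
  have h6 : α * (d : 𝓞 K) ∈ Ideal.span {β} := by
    have h7 : Ideal.span {α * (d : 𝓞 K)} ≤ Ideal.span {β} := by
      rw [h5]
      exact Ideal.mul_le_left
    exact h7 (Ideal.mem_span_singleton_self _)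
  obtain ⟨θ, hθ⟩ := Ideal.mem_span_singleton'.1 h6
  refine ⟨θ, ?_⟩
  have h7 : Ideal.span {β} * Ideal.span {θ} = Ideal.span {β} * (rI S d * b ^ 2) := by
    rw [← h5, Ideal.span_singleton_mul_span_singleton, mul_comm β θ, hθ]
  refine mul_left_cancel₀ ?_ h7
  rw [Ne, Ideal.zero_eq_bot, Ideal.span_singleton_eq_bot]
  exact hβ.ne_zero hb

/-- the conic, without the coprimality -/
private theorem conic_pt (hb : Base5 K a s) (hS : algebraMap (𝓞 K) K S = s) {d e : ℕ}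
    (hde : d * e = a) {b : Ideal (𝓞 K)} {α β : 𝓞 K} (hβ : T4 s β)
    (h : Ideal.span {α} * rI S d = Ideal.span {β} * b ^ 2) :
    ∃ x y : ℤ, (d : ℤ) * x ^ 2 + e * y ^ 2 = (Ideal.absNorm b : ℤ) ^ 2 := by
  have hQ := q5_of hb hS
  have hda : d ∣ a := ⟨e, hde.symm⟩
  obtain ⟨θ, h1⟩ := exists_theta hb hS hda hβ h
  obtain ⟨p, y, hp⟩ := hQ.coords θ
  have h3 : θ ∈ rI S d := by
    have h4 : Ideal.span {θ} ≤ rI S d := by
      rw [h1]
      exact Ideal.mul_le_left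
    exact h4 (Ideal.mem_span_singleton_self _)
  rw [hp, rI_mem hb hS hda] at h3
  obtain ⟨x, hx⟩ := h3
  have hd0 : (d : ℤ) ≠ 0 := by
    intro h4
    have h5 : d = 0 := by exact_mod_cast h4
    rw [h5, zero_mul] at hde
    have h6 := hQ.pos
    omega
  have h4 : (Ideal.absNorm (Ideal.span {θ}) : ℤ) = p ^ 2 + a * y ^ 2 := by
    rw [hp]
    exact hQ.norm_gen p y
  rw [h1, map_mul, map_pow, rI_norm hb hS hda, hx, ← hde] at h4
  push_cast at h4
  refine ⟨x, y, ?_⟩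
  apply mul_left_cancel₀ hd0
  linear_combination -h4

theorem conic_two (hb : Base5 K a s) (hS : algebraMap (𝓞 K) K S = s) {d e : ℕ} (hde : d * e = a)
    {b : Ideal (𝓞 K)} (hb1 : OddI b) {α β : 𝓞 K} (hα : T4 s α) (hβ : T4 s β)
    (h : Ideal.span {α} * rI S d = Ideal.span {β} * b ^ 2) :
    ∃ x y z : ℤ, d * x ^ 2 + e * y ^ 2 = z ^ 2 ∧ IsCoprime x y := by
  obtain ⟨x, y, h1⟩ := conic_pt hb hS hde hβ h
  have hn : (Ideal.absNorm b : ℤ) ≠ 0 := by
    intro h2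
    have h3 : Ideal.absNorm b = 0 := by exact_mod_cast h2
    have h4 := hb1
    unfold OddI at h4
    rw [h3] at h4
    simp at h4
  have hg : 0 < Int.gcd x y := by
    rw [Int.gcd_pos_iff]
    by_contra h2
    push Not at h2
    rw [h2.1, h2.2] at h1
    apply pow_ne_zero 2 hn
    rw [← h1]
    ring
  obtain ⟨g, x', y', hg0, hcop, hx, hy⟩ :
      ∃ g x' y' : ℤ, g ≠ 0 ∧ IsCoprime x' y' ∧ x = x' * g ∧ y = y' * g := by
    obtain ⟨x', y', hcop, hx, hy⟩ := Int.exists_gcd_one hg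
    exact ⟨(Int.gcd x y : ℕ), x', y', by exact_mod_cast hg.ne',
      Int.isCoprime_iff_gcd_eq_one.2 hcop, hx, hy⟩
  have h2 : g ^ 2 ∣ (Ideal.absNorm b : ℤ) ^ 2 :=
    ⟨d * x' ^ 2 + e * y' ^ 2, by rw [← h1, hx, hy]; ring⟩
  obtain ⟨z, hz⟩ := (Int.pow_dvd_pow_iff (by norm_num)).1 h2
  refine ⟨x', y', z, ?_, hcop⟩
  apply mul_left_cancel₀ (pow_ne_zero 2 hg0)
  rw [hz, hx, hy] at h1
  linear_combination h1

end Pool.Agent.Work.MP_8efaaa_nt.Rg
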