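import Mathlib
import Pool.Agent.Work.MP_8efaaa_nt.Rg.Defs
import Pool.Agent.Work.MP_8efaaa_nt.Rf.GdEl
import Pool.Agent.Work.MP_8efaaa_nt.Rf.Cj
import Pool.Agent.Work.MP_8efaaa_nt.Rf.Ram
import Pool.Agent.Work.MP_8efaaa_nt.Rf.Conic

/-!
# Module AConD: the quartic equation

`a = d e`, `c` odd, `(α) rI S d = (β) c ^ 4` with `T4` elements `α, β`. Choose `c` with these properties
(`Q c`: `c` odd and there are `T4` elements `α, β` with `(α) rI S d = (β) c ^ 4`) and `N c` minimal. Let `w = N c`,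
`c' = σ c`: multiply by `c' ^ 4`: `(α) rI S d c' ^ 4 = (β w ^ 4)`, so `α θ = β w ^ 4` with `(θ) = rI S d c' ^ 4`,
`θ ∈ rI S d`, `θ = d x + y S` (`rI_mem`), norms: `d ^ 2 x ^ 2 + a y ^ 2 = d w ^ 4`, i.e. `d x ^ 2 + e y ^ 2 = w ^ 4`.
`α = x2 + 4 y2 S`, `x2` odd; the coefficient of `S` of `α θ = β w ^ 4` is divisible by `4`:
`x2 y + 4 y2 d x = 0` modulo `4`: `4 ∣ y`. `w` is odd, so `x` is odd.
Coprime: suppose a prime `q` divides `x` and `y`; `q` is odd (`x` is), `(q) ∣ (θ) = rI S d c' ^ 4`.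
If `q ∤ a`: each prime `𝔮` over `q` is prime to `rI S d`, so `𝔮 ∣ c'`; `q` inert: `(q) ∣ c'`; `q = 𝔮 𝔮'` with `𝔮 ≠ 𝔮'`:
both divide `c'` so `(q) ∣ c'`. So `(q) ∣ c`, `c = (q) c1`, `N c1 = N c / q ^ 2`, and
`(α) rI S d = (β q ^ 4) c1 ^ 4`: `Q c1`, contradiction to the minimality.
If `q ∣ a`: `𝔮 = rI S q`, `𝔮 ^ 2 = (q)`; `𝔮 ^ 2 ∣ rI S d c' ^ 4` and `𝔮 ^ 2 ∤ rI S d` (the norm `d` is squarefree),
so `𝔮 ∣ c'`, `𝔮 ∣ c` (`σ 𝔮 = 𝔮`), `c = 𝔮 c1`, `N c1 = N c / q`, and `(α) rI S d = (β q ^ 2) c1 ^ 4`: `Q c1`,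
contradiction. (`β q ^ j` is `T4`: `t4_nat`, `T4.mul`.)
The proof of part (B) of `Rf/Conic.lean` (`conic_aux`) is the same argument with `b ^ 2` instead of `c ^ 4`.
-/

set_option autoImplicit false

namespace Pool.Agent.Work.MP_8efaaa_nt.Rg

open NumberField Pool.Agent.Work.MP_8efaaa_nt.R Pool.Agent.Work.MP_8efaaa_nt.Rf

universe u

variable {K : Type u} [Field K] [NumberField K] {a : ℕ} {s : K} {S : 𝓞 K}

private theorem q5_of (hb : Base5 K a s) (hS : algebraMap (𝓞 K) K S = s) : Q5 K a S := by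
  obtain ⟨S', h1, h2⟩ := exists_Q5 hb
  have h3 : S' = S := RingOfIntegers.ext (h1.trans hS.symm)
  rwa [h3] at h2

omit [NumberField K] in
private theorem t4_eq (hS : algebraMap (𝓞 K) K S = s) {δ : 𝓞 K} (h : T4 s δ) :
    ∃ x y : ℤ, Odd x ∧ δ = (x : 𝓞 K) + 4 * (y : 𝓞 K) * S := by
  obtain ⟨x, y, hx, hxy⟩ := h
  refine ⟨x, y, hx, RingOfIntegers.ext ?_⟩
  show algebraMap (𝓞 K) K _ = algebraMap (𝓞 K) K _
  rw [hxy, map_add, map_mul, map_mul, map_intCast, map_intCast, hS, map_ofNat]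

/-- the generator of `rI S d * b ^ 2` -/
private theorem exists_theta (hb : Base5 K a s) (hS : algebraMap (𝓞 K) K S = s) {d : ℕ}
    (hda : d ∣ a) {b : Ideal (𝓞 K)} {α β : 𝓞 K} (hβ : T4 s β)
    (h : Ideal.span {α} * rI S d = Ideal.span {β} * b ^ 2) :
    ∃ θ : 𝓞 K, Ideal.span {θ} = rI S d * b ^ 2 ∧ β * θ = α * (d : 𝓞 K) := by
  have h5 : Ideal.span {α * (d : 𝓞 K)} = Ideal.span {β} * (rI S d * b ^ 2) := by
    rw [← Ideal.span_singleton_mul_span_singleton, ← rI_sq hb hS hda, ← mul_assoc, h]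
    ring
  have h6 : α * (d : 𝓞 K) ∈ Ideal.span {β} := by
    have h7 : Ideal.span {α * (d : 𝓞 K)} ≤ Ideal.span {β} := by
      rw [h5]
      exact Ideal.mul_le_left
    exact h7 (Ideal.mem_span_singleton_self _)
  obtain ⟨θ, hθ⟩ := Ideal.mem_span_singleton'.1 h6
  refine ⟨θ, ?_, by rw [mul_comm]; exact hθ⟩
  have h7 : Ideal.span {β} * Ideal.span {θ} = Ideal.span {β} * (rI S d * b ^ 2) := by
    rw [← h5, Ideal.span_singleton_mul_span_singleton, mul_comm β θ, hθ]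
  refine mul_left_cancel₀ ?_ h7
  rw [Ne, Ideal.zero_eq_bot, Ideal.span_singleton_eq_bot]
  exact hβ.ne_zero hb

/-- the conic, without the coprimality -/
private theorem conic_pt (hb : Base5 K a s) (hS : algebraMap (𝓞 K) K S = s) {d e : ℕ}
    (hde : d * e = a) {b : Ideal (𝓞 K)} (hn : Ideal.absNorm b % 2 = 1) {α β : 𝓞 K}
    (hα : T4 s α) (hβ : T4 s β)
    (h : Ideal.span {α} * rI S d = Ideal.span {β} * b ^ 2) :
    ∃ x y : ℤ, (d : ℤ) * x ^ 2 + e * y ^ 2 = (Ideal.absNorm b : ℤ) ^ 2 ∧ 4 ∣ y ∧ Odd x ∧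
      Ideal.span {(d : 𝓞 K) * (x : 𝓞 K) + (y : 𝓞 K) * S} = rI S d * b ^ 2 := by
  have hQ := q5_of hb hS
  have hda : d ∣ a := ⟨e, hde.symm⟩
  obtain ⟨θ, h1, h2⟩ := exists_theta hb hS hda hβ h
  obtain ⟨p, y, hp⟩ := hQ.coords θ
  have h3 : θ ∈ rI S d := by
    have h4 : Ideal.span {θ} ≤ rI S d := by
      rw [h1]
      exact Ideal.mul_le_left
    exact h4 (Ideal.mem_span_singleton_self _)
  rw [hp, rI_mem hb hS hda] at h3
  obtain ⟨x, hx⟩ := h3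
  have hd0 : (d : ℤ) ≠ 0 := by
    intro h4
    have h5 : d = 0 := by exact_mod_cast h4
    rw [h5, zero_mul] at hde
    have h6 := hQ.pos
    omega
  have h4 : (Ideal.absNorm (Ideal.span {θ}) : ℤ) = p ^ 2 + a * y ^ 2 := by
    rw [hp]
    exact hQ.norm_gen p y
  rw [h1, map_mul, map_pow, rI_norm hb hS hda, hx, ← hde] at h4
  push_cast at h4
  have h5 : (d : ℤ) * x ^ 2 + e * y ^ 2 = (Ideal.absNorm b : ℤ) ^ 2 := by
    apply mul_left_cancel₀ hd0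
    linear_combination -h4
  obtain ⟨x2, y2, hx2, hα'⟩ := t4_eq hS hα
  obtain ⟨x1, y1, hx1, hβ'⟩ := t4_eq hS hβ
  have h6 : ((x1 * (d * x) - 4 * a * y1 * y : ℤ) : 𝓞 K) + ((x1 * y + 4 * y1 * (d * x) : ℤ) : 𝓞 K) * S =
      ((x2 * d : ℤ) : 𝓞 K) + ((4 * y2 * d : ℤ) : 𝓞 K) * S := by
    have h7 := hQ.sq
    rw [hp, hα', hβ', hx] at h2
    push_cast at h2 ⊢
    linear_combination h2 - 4 * (y1 : 𝓞 K) * (y : 𝓞 K) * h7
  have h7 := (hQ.unique _ _ _ _ h6).2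
  have h8 : (4 : ℤ) ∣ y := by
    have h9 : (4 : ℤ) ∣ x1 * y := ⟨y2 * d - y1 * (d * x), by linear_combination h7⟩
    have h10 : IsCoprime (4 : ℤ) x1 := by
      have h11 : IsCoprime (2 : ℤ) x1 := by
        obtain ⟨k, hk⟩ := hx1
        exact ⟨-k, 1, by rw [hk]; ring⟩
      have h12 := h11.pow_left (m := 2)
      norm_num at h12
      exact h12
    exact h10.dvd_of_dvd_mul_left h9
  have h9 : Odd x := by
    rw [← Int.not_even_iff_odd]
    intro h10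
    obtain ⟨k, hk⟩ := h10
    obtain ⟨l, hl⟩ := h8
    have h11 : Odd ((Ideal.absNorm b : ℤ) ^ 2) := by
      apply Odd.pow
      have h12 : Odd (Ideal.absNorm b) := Nat.odd_iff.2 hn
      exact_mod_cast h12
    rw [← h5, hk, hl] at h11
    rw [← Int.not_even_iff_odd] at h11
    exact h11 ⟨d * (k * (k + k)) + e * (8 * l ^ 2), by ring⟩
  refine ⟨x, y, h5, h8, h9, ?_⟩
  rw [← h1, hp, hx]
  push_cast
  rfl

/-- consequences of divisibility by an odd prime `q` -/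
private theorem key_b (hQ : Q5 K a S) {d q : ℕ} {b : Ideal (𝓞 K)}
    (h9 : rI S d * b ^ 2 ≤ Ideal.span {(q : 𝓞 K)}) (u v : ℤ) (huv : (u + v * S : 𝓞 K) ∈ b) :
    (q : ℤ) ∣ 2 * a * u * v ∧ (q : ℤ) ∣ u ^ 2 - a * v ^ 2 := by
  have h10 : S * (u + v * S : 𝓞 K) ^ 2 ∈ Ideal.span {(q : 𝓞 K)} := by
    apply h9
    apply Ideal.mul_mem_mul _ (Ideal.pow_mem_pow huv 2)
    exact Ideal.subset_span (by simp)
  obtain ⟨Y, hY⟩ := Ideal.mem_span_singleton'.1 h10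
  obtain ⟨r, t, hrt⟩ := hQ.coords Y
  have h11 : ((q * r : ℤ) : 𝓞 K) + ((q * t : ℤ) : 𝓞 K) * S =
      ((-(2 * a * u * v) : ℤ) : 𝓞 K) + ((u ^ 2 - a * v ^ 2 : ℤ) : 𝓞 K) * S := by
    have h12 := hQ.sq
    rw [hrt] at hY
    push_cast
    linear_combination hY + (2 * (u : 𝓞 K) * v + (v : 𝓞 K) ^ 2 * S) * h12
  obtain ⟨h12, h13⟩ := hQ.unique _ _ _ _ h11
  exact ⟨(dvd_neg.1 ⟨r, h12.symm⟩), ⟨t, h13.symm⟩⟩

/-- the same for squares -/
private theorem key_c (hQ : Q5 K a S) {q : ℕ} {c : Ideal (𝓞 K)}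
    (h9 : c ^ 2 ≤ Ideal.span {(q : 𝓞 K)}) (u v : ℤ) (huv : (u + v * S : 𝓞 K) ∈ c) :
    (q : ℤ) ∣ 2 * u * v ∧ (q : ℤ) ∣ u ^ 2 - a * v ^ 2 := by
  have h10 : (u + v * S : 𝓞 K) ^ 2 ∈ Ideal.span {(q : 𝓞 K)} := h9 (Ideal.pow_mem_pow huv 2)
  obtain ⟨Y, hY⟩ := Ideal.mem_span_singleton'.1 h10
  obtain ⟨r, t, hrt⟩ := hQ.coords Y
  have h11 : ((q * r : ℤ) : 𝓞 K) + ((q * t : ℤ) : 𝓞 K) * S =
      ((u ^ 2 - a * v ^ 2 : ℤ) : 𝓞 K) + ((2 * u * v : ℤ) : 𝓞 K) * S := by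
    have h12 := hQ.sq
    rw [hrt] at hY
    push_cast
    linear_combination hY + (v : 𝓞 K) ^ 2 * h12
  obtain ⟨h12, h13⟩ := hQ.unique _ _ _ _ h11
  exact ⟨⟨t, h13.symm⟩, ⟨r, h12.symm⟩⟩

/-- both coordinates are divisible by an odd prime that does not divide `a` -/
private theorem dvd_both {q : ℕ} (hqp : Prime (q : ℤ)) (hq2 : ¬ (q : ℤ) ∣ 2) {u v m : ℤ}
    (hqa : ¬ (q : ℤ) ∣ (a : ℤ)) (hm : ¬ (q : ℤ) ∣ m) (h11 : (q : ℤ) ∣ 2 * m * u * v)
    (h12 : (q : ℤ) ∣ u ^ 2 - a * v ^ 2) : (q : ℤ) ∣ u ∧ (q : ℤ) ∣ v := by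
  rcases hqp.dvd_or_dvd h11 with h14 | h14
  · rcases hqp.dvd_or_dvd h14 with h15 | h15
    · rcases hqp.dvd_or_dvd h15 with h16 | h16
      · exact absurd h16 hq2
      · exact absurd h16 hm
    · refine ⟨h15, ?_⟩
      have h16 : (q : ℤ) ∣ a * v ^ 2 := by
        have h17 := dvd_sub (h15.mul_left u) h12
        have h18 : u * u - (u ^ 2 - a * v ^ 2) = a * v ^ 2 := by ring
        rwa [h18] at h17
      rcases hqp.dvd_or_dvd h16 with h17 | h17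
      · exact absurd h17 hqa
      · exact hqp.dvd_of_dvd_pow h17
  · refine ⟨?_, h14⟩
    have h16 : (q : ℤ) ∣ u ^ 2 := by
      have h17 := dvd_add h12 (h14.mul_left (a * v))
      have h18 : u ^ 2 - a * v ^ 2 + a * v * v = u ^ 2 := by ring
      rwa [h18] at h17
    exact hqp.dvd_of_dvd_pow h16

/-- the descent -/
private theorem conic4_aux (hb : Base5 K a s) (hS : algebraMap (𝓞 K) K S = s) {d e : ℕ}
    (hde : d * e = a) (n : ℕ) :
    ∀ (c : Ideal (𝓞 K)) (α β : 𝓞 K), Ideal.absNorm c = n → n % 2 = 1 → T4 s α → T4 s β →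
      Ideal.span {α} * rI S d = Ideal.span {β} * c ^ 4 →
    ∃ x y w : ℤ, d * x ^ 2 + e * y ^ 2 = w ^ 4 ∧ IsCoprime x y ∧ Odd x ∧ 4 ∣ y := by
  induction n using Nat.strong_induction_on with
  | _ n ih =>
  intro c α β hn h2 hα hβ h
  have hQ := q5_of hb hS
  have h22 : Ideal.absNorm (c ^ 2) % 2 = 1 := by
    rw [map_pow, hn, Nat.pow_mod, h2]
  obtain ⟨x, y, h5, h6, h7, h8⟩ := conic_pt hb hS hde h22 hα hβ
    (by rw [← pow_mul]; exact h)
  rw [map_pow, hn] at h5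
  by_cases hc : IsCoprime x y
  · refine ⟨x, y, n, ?_, hc, h7, h6⟩
    rw [h5]
    push_cast
    ring
  rw [Int.isCoprime_iff_gcd_eq_one] at hc
  obtain ⟨q, hq, hqg⟩ := Nat.exists_prime_and_dvd hc
  have hqx : (q : ℤ) ∣ x := (Int.natCast_dvd_natCast.2 hqg).trans (Int.gcd_dvd_left _ _)
  have hqy : (q : ℤ) ∣ y := (Int.natCast_dvd_natCast.2 hqg).trans (Int.gcd_dvd_right _ _)
  have hq2 : q % 2 = 1 := by
    rcases hq.eq_two_or_odd with h9 | h9
    · exfalso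
      rw [h9] at hqx
      rw [← Int.not_even_iff_odd, even_iff_two_dvd] at h7
      exact h7 (by exact_mod_cast hqx)
    · exact h9
  have hqp : Prime (q : ℤ) := Nat.prime_iff_prime_int.1 hq
  have h9 : rI S d * (c ^ 2) ^ 2 ≤ Ideal.span {(q : 𝓞 K)} := by
    rw [← h8, Ideal.span_singleton_le_iff_mem, Ideal.mem_span_singleton]
    obtain ⟨x', hx'⟩ := hqx
    obtain ⟨y', hy'⟩ := hqy
    rw [hx', hy']
    push_cast
    exact ⟨d * x' + y' * S, by ring⟩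
  have key := key_b hQ h9
  have hn0 : 0 < n := by omega
  by_cases hqa : q ∣ a
  · -- the ramified case
    have hqa' : (q : ℤ) ∣ (a : ℤ) := Int.natCast_dvd_natCast.2 hqa
    have h10 : c ^ 2 ≤ rI S q := by
      intro X hX
      obtain ⟨u, v, huv⟩ := hQ.coords X
      rw [huv] at hX ⊢
      rw [rI_mem hb hS hqa]
      have h11 := (key u v hX).2
      have h12 : (q : ℤ) ∣ u ^ 2 := by
        have h13 : (q : ℤ) ∣ a * v ^ 2 := hqa'.mul_right _
        have h14 := dvd_add h11 h13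
        rwa [sub_add_cancel] at h14
      exact hqp.dvd_of_dvd_pow h12
    have h10' : c ≤ rI S q := by
      intro X hX
      obtain ⟨u, v, huv⟩ := hQ.coords X
      rw [huv] at hX ⊢
      have h12 := h10 (Ideal.pow_mem_pow hX 2)
      have h13 : ((u : 𝓞 K) + (v : 𝓞 K) * S) ^ 2 =
          ((u ^ 2 - a * v ^ 2 : ℤ) : 𝓞 K) + ((2 * u * v : ℤ) : 𝓞 K) * S := by
        have h14 := hQ.sq
        push_cast
        linear_combination (v : 𝓞 K) ^ 2 * h14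
      rw [h13, rI_mem hb hS hqa] at h12
      rw [rI_mem hb hS hqa]
      have h14 : (q : ℤ) ∣ u ^ 2 := by
        have h15 : (q : ℤ) ∣ a * v ^ 2 := hqa'.mul_right _
        have h16 := dvd_add h12 h15
        rwa [sub_add_cancel] at h16
      exact hqp.dvd_of_dvd_pow h14
    obtain ⟨c1, hc1⟩ := Ideal.dvd_iff_le.2 h10'
    have h11 : n = q * Ideal.absNorm c1 := by
      rw [← hn, hc1, map_mul, rI_norm hb hS hqa]
    have h12 : 0 < Ideal.absNorm c1 := by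
      rcases Nat.eq_zero_or_pos (Ideal.absNorm c1) with h13 | h13
      · rw [h13] at h11
        omega
      · exact h13
    have h13 : Ideal.absNorm c1 < n := by
      rw [h11]
      have := hq.two_le
      nlinarith
    have hqq : Odd (q ^ 2) := (Nat.odd_iff.2 hq2).pow
    refine ih (Ideal.absNorm c1) h13 c1 α (β * ((q ^ 2 : ℕ) : 𝓞 K)) rfl ?_ hα
      (hβ.mul hb (t4_nat s hqq)) ?_
    · have h14 : Odd (q * Ideal.absNorm c1) := by rw [← h11]; exact Nat.odd_iff.2 h2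
      exact Nat.odd_iff.1 (Nat.odd_mul.1 h14).2
    · have h15 : rI S q ^ 4 = Ideal.span {((q ^ 2 : ℕ) : 𝓞 K)} := by
        have h16 : rI S q ^ 4 = (rI S q * rI S q) ^ 2 := by ring
        rw [h16, rI_sq hb hS hqa, Ideal.span_singleton_pow]
        push_cast
        rfl
      rw [h, hc1, mul_pow, h15, ← Ideal.span_singleton_mul_span_singleton, mul_assoc]
  · -- the other case
    have hqa' : ¬ (q : ℤ) ∣ (a : ℤ) := fun h10 => hqa (Int.natCast_dvd_natCast.1 h10)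
    have hq2' : ¬ (q : ℤ) ∣ 2 := by
      intro h10
      have h11 : q ∣ 2 := by exact_mod_cast h10
      have h12 := Nat.le_of_dvd (by norm_num) h11
      have h13 := hq.two_le
      omega
    have h10 : c ^ 2 ≤ Ideal.span {(q : 𝓞 K)} := by
      intro X hX
      obtain ⟨u, v, huv⟩ := hQ.coords X
      rw [huv] at hX ⊢
      obtain ⟨h11, h12⟩ := key u v hX
      obtain ⟨⟨u', hu'⟩, ⟨v', hv'⟩⟩ := dvd_both hqp hq2' hqa' hqa' h11 h12
      rw [Ideal.mem_span_singleton, hu', hv']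
      push_cast
      exact ⟨u' + v' * S, by ring⟩
    have h10' : c ≤ Ideal.span {(q : 𝓞 K)} := by
      intro X hX
      obtain ⟨u, v, huv⟩ := hQ.coords X
      rw [huv] at hX ⊢
      obtain ⟨h11, h12⟩ := key_c hQ h10 u v hX
      have h1 : ¬ (q : ℤ) ∣ 1 := fun h13 => hqp.not_isUnit (isUnit_of_dvd_one h13)
      obtain ⟨⟨u', hu'⟩, ⟨v', hv'⟩⟩ := dvd_both hqp hq2' hqa' h1 (by rwa [mul_one]) h12
      rw [Ideal.mem_span_singleton, hu', hv']
      push_cast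
      exact ⟨u' + v' * S, by ring⟩
    obtain ⟨c1, hc1⟩ := Ideal.dvd_iff_le.2 h10'
    have h11' : Ideal.absNorm (Ideal.span {(q : 𝓞 K)}) = q ^ 2 := by
      have h12 := hQ.norm_gen q 0
      have h13 : ((q : ℤ) : 𝓞 K) + ((0 : ℤ) : 𝓞 K) * S = (q : 𝓞 K) := by push_cast; ring
      rw [h13] at h12
      have h14 : ((Ideal.absNorm (Ideal.span {(q : 𝓞 K)}) : ℕ) : ℤ) = ((q ^ 2 : ℕ) : ℤ) := by
        rw [h12]
        push_cast
        ring
      exact_mod_cast h14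
    have h11 : n = q ^ 2 * Ideal.absNorm c1 := by
      rw [← hn, hc1, map_mul, h11']
    have h12 : 0 < Ideal.absNorm c1 := by
      rcases Nat.eq_zero_or_pos (Ideal.absNorm c1) with h13 | h13
      · rw [h13] at h11
        omega
      · exact h13
    have h13 : Ideal.absNorm c1 < n := by
      rw [h11]
      have h14 : 1 < q ^ 2 := Nat.one_lt_pow (by norm_num) hq.one_lt
      nlinarith
    have hqq : Odd (q ^ 4) := (Nat.odd_iff.2 hq2).pow
    refine ih (Ideal.absNorm c1) h13 c1 α (β * ((q ^ 4 : ℕ) : 𝓞 K)) rfl ?_ hα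
      (hβ.mul hb (t4_nat s hqq)) ?_
    · have h14 : Odd (q ^ 2 * Ideal.absNorm c1) := by rw [← h11]; exact Nat.odd_iff.2 h2
      exact Nat.odd_iff.1 (Nat.odd_mul.1 h14).2
    · rw [h, hc1, mul_pow, Ideal.span_singleton_pow,
        ← Ideal.span_singleton_mul_span_singleton, mul_assoc]
      push_cast
      rfl

theorem conic_four (hb : Base5 K a s) (hS : algebraMap (𝓞 K) K S = s) {d e : ℕ}
    (hde : d * e = a) {c : Ideal (𝓞 K)} (hc : OddI c) {α β : 𝓞 K} (hα : T4 s α) (hβ : T4 s β)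
    (h : Ideal.span {α} * rI S d = Ideal.span {β} * c ^ 4) :
    ∃ x y w : ℤ, d * x ^ 2 + e * y ^ 2 = w ^ 4 ∧ IsCoprime x y ∧ Odd x ∧ 4 ∣ y := by
  exact conic4_aux hb hS hde _ c α β rfl (Nat.odd_iff.1 hc) hα hβ h

end Pool.Agent.Work.MP_8efaaa_nt.Rg
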