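import Mathlib
import Pool.Agent.Work.MP_8efaaa_nt.Rf.GT

/-!
# Module AGrp: finite abelian groups (pure Mathlib and `Rf/GT.lean`)

`four_dvd`: `|A| = 8 h`, `h` even and positive, all `x ^ (h / 2) = 1`. If `h / 2` were odd: an element `x` of order
`2` (Cauchy, `exists_prime_orderOf_dvd_card`) satisfies `x ^ (h / 2) = x ≠ 1`. So `h / 2` is even.

Let `|A| = 32 n`, all `x ^ (2 n) = 1`. Let `B` be the subgroup of the squares; `|B| = |A| / |A[2]|`, where `A[2]`, the
kernel of the squaring map, is a `2`-group, so its order is a power of two. All `x ∈ B` satisfy `x ^ n = 1`.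
`grp_a`: `|A[2]| ≤ 16`, so `|A[2]| ∣ 16` and `|B| = 2 n j`. Suppose that all `y ^ 2` with `(y ^ 2) ^ 2 = 1` are `1` or
`τ`: `B` has at most two elements with `x ^ 2 = 1`, so for all `i` at most `2 ^ i` elements with `x ^ (2 ^ i) = 1`
(induction: squaring maps them to those of `i - 1`, fibres of size at most two). Let `2 ^ i` be the exact power of
`2` in `n`. A Sylow `2`-subgroup of `B` has at least `2 ^ (i + 1)` elements and its elements satisfy `x ^ n = 1`, so
`x ^ (2 ^ i) = 1`: contradiction.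
`grp_b`: `|A[2]| ≤ 8`, so `|A[2]| ∣ 8` and `|B| = 4 (n j)`; all `x ∈ B` satisfy `x ^ (n j) = 1` and at most four
elements of `B` satisfy `x ^ 2 = 1`. By `Rf.gt` (for the group `B` and `n j`) each of them is a square in `B`:
`y ^ 2 = t ^ 2` with `t = z ^ 2`.
-/

set_option autoImplicit false

namespace Pool.Agent.Work.MP_8efaaa_nt.Rg

private theorem odd_pow_ne {A : Type*} [Group A] [Finite A] (h2 : 2 ∣ Nat.card A) {m : ℕ}
    (hm : Odd m) : ∃ x : A, x ^ 2 = 1 ∧ x ^ m ≠ 1 := by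
  haveI : Fact (Nat.Prime 2) := ⟨Nat.prime_two⟩
  obtain ⟨x, hx⟩ := exists_prime_orderOf_dvd_card' 2 h2
  refine ⟨x, by rw [← hx]; exact pow_orderOf_eq_one x, fun h => ?_⟩
  have h1 := orderOf_dvd_of_pow_eq_one h
  rw [hx] at h1
  exact (Nat.not_even_iff_odd.2 hm) (even_iff_two_dvd.2 h1)

/-- the order of the group of the squares -/
private theorem sq_card {A : Type*} [CommGroup A] [Finite A] {N j : ℕ}
    (hc : Nat.card A = 2 ^ j * N) (h2 : Nat.card {x : A // x ^ 2 = 1} ≤ 2 ^ j) :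
    ∃ r, Nat.card (powMonoidHom 2 : A →* A).range = r * N := by
  haveI : Fact (Nat.Prime 2) := ⟨Nat.prime_two⟩
  obtain ⟨f, hf⟩ : ∃ f : A →* A, f = powMonoidHom 2 := ⟨_, rfl⟩
  rw [← hf]
  have hker : ∀ x, x ∈ f.ker ↔ x ^ 2 = 1 := fun x => by rw [hf]; rfl
  have h1 : Nat.card f.ker = Nat.card {x : A // x ^ 2 = 1} :=
    Nat.card_congr (Equiv.subtypeEquivRight hker)
  have hp : IsPGroup 2 f.ker := by
    intro g
    refine ⟨1, ?_⟩
    apply Subtype.ext
    rw [pow_one, Subgroup.coe_pow]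
    exact (hker g.1).1 g.2
  obtain ⟨i, hi⟩ := IsPGroup.iff_card.1 hp
  have h3 : i ≤ j := by
    rw [← h1, hi] at h2
    exact (Nat.pow_le_pow_iff_right (by norm_num)).1 h2
  have h4 := f.ker.card_mul_index
  rw [Subgroup.index_ker, hi, hc] at h4
  refine ⟨2 ^ (j - i), ?_⟩
  have h5 : 2 ^ j = 2 ^ i * 2 ^ (j - i) := by
    rw [← pow_add]
    congr 1
    omega
  rw [h5, mul_assoc] at h4
  exact Nat.eq_of_mul_eq_mul_left (by positivity) h4

theorem four_dvd {A : Type*} [CommGroup A] [Finite A] {h : ℕ} (h0 : 0 < h) (h2 : 2 ∣ h)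
    (hc : Nat.card A = 8 * h) (he : ∀ x : A, x ^ (h / 2) = 1) : 4 ∣ h := by
  by_contra h4
  have hodd : Odd (h / 2) := by
    rw [Nat.odd_iff]
    omega
  obtain ⟨x, -, hx⟩ := odd_pow_ne (A := A) (by rw [hc]; omega) hodd
  exact hx (he x)

theorem grp_a {A : Type*} [CommGroup A] [Finite A] {n : ℕ} (hn : 0 < n)
    (hc : Nat.card A = 32 * n) (he : ∀ x : A, x ^ (2 * n) = 1)
    (h2 : Nat.card {x : A // x ^ 2 = 1} ≤ 16) (τ : A) :
    ∃ y : A, (y ^ 2) ^ 2 = 1 ∧ y ^ 2 ≠ 1 ∧ y ^ 2 ≠ τ := by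
  classical
  by_contra hcon
  push Not at hcon
  obtain ⟨r, hr⟩ := sq_card (A := A) (N := 2 * n) (j := 4) (by rw [hc]; ring) (by simpa using h2)
  obtain ⟨B, hB⟩ : ∃ B : Subgroup A, B = (powMonoidHom 2 : A →* A).range := ⟨_, rfl⟩
  rw [← hB] at hr
  have hBm : ∀ a : A, a ∈ B → ∃ y : A, y ^ 2 = a := fun a ha => by
    rw [hB, MonoidHom.mem_range] at ha
    exact ha
  have hmem : ∀ b : B, ∃ y : A, y ^ 2 = b.1 := fun b => hBm b.1 b.2
  have hr0 : r ≠ 0 := by
    rintro rfl
    have : 0 < Nat.card B := Nat.card_pos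
    omega
  have hbn : ∀ b : B, b ^ n = 1 := by
    intro b
    obtain ⟨y, hy⟩ := hmem b
    apply Subtype.ext
    rw [Subgroup.coe_pow, ← hy, ← pow_mul]
    exact he y
  have heven : Even n := by
    by_contra hodd
    rw [Nat.not_even_iff_odd] at hodd
    obtain ⟨x, -, hx⟩ := odd_pow_ne (A := B) (by
      rw [hr]
      exact Dvd.dvd.mul_left (Dvd.intro _ rfl) r) hodd
    exact hx (hbn x)
  have hG : Nat.card (B × Multiplicative (ZMod 2)) = 4 * (r * n) := by
    rw [Nat.card_prod, hr]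
    have : Nat.card (Multiplicative (ZMod 2)) = 2 := by
      rw [Nat.card_congr (Multiplicative.toAdd (α := ZMod 2)), Nat.card_zmod]
    rw [this]
    ring
  have hsq : ∀ c : Multiplicative (ZMod 2), c ^ 2 = 1 := by decide
  have h3 := Rf.gt (G := B × Multiplicative (ZMod 2)) (n := r * n) hG (by
    intro g
    ext1
    · rw [Prod.pow_fst, mul_comm, pow_mul, hbn, one_pow, Prod.fst_one]
    · obtain ⟨k, hk⟩ := heven
      rw [Prod.pow_snd, hk, ← two_mul, mul_comm, mul_assoc, pow_mul, hsq, one_pow, Prod.snd_one])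
    (by
      let φ : {g : B × Multiplicative (ZMod 2) // g ^ 2 = 1} → Bool × Multiplicative (ZMod 2) :=
        fun g => (decide (g.1.1 = 1), g.1.2)
      have hφ : Function.Injective φ := by
        rintro ⟨⟨b, c⟩, hg⟩ ⟨⟨b', c'⟩, hg'⟩ h
        have e1 : decide (b = 1) = decide (b' = 1) := congrArg Prod.fst h
        have e2 : c = c' := congrArg Prod.snd h
        have key : ∀ b : B, b ^ 2 = 1 → b ≠ 1 → b.1 = τ := by
          intro b hb hb1
          obtain ⟨y, hy⟩ := hmem b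
          rw [← hy]
          refine hcon y ?_ ?_
          · rw [hy, ← Subgroup.coe_pow, hb, Subgroup.coe_one]
          · rw [hy]
            exact fun h => hb1 (Subtype.ext h)
        have hb : b ^ 2 = 1 := congrArg Prod.fst hg
        have hb' : b' ^ 2 = 1 := congrArg Prod.fst hg'
        have e3 : b = b' := by
          by_cases h1 : b = 1
          · have h2 : b' = 1 := by
              rw [decide_eq_true h1] at e1
              exact of_decide_eq_true e1.symm
            rw [h1, h2]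
          · have h2 : b' ≠ 1 := by
              rw [decide_eq_false h1] at e1
              exact of_decide_eq_false e1.symm
            exact Subtype.ext ((key b hb h1).trans (key b' hb' h2).symm)
        rw [Subtype.mk.injEq, e3, e2]
      refine (Nat.card_le_card_of_injective φ hφ).trans (le_of_eq ?_)
      rw [Nat.card_prod, Nat.card_congr (Multiplicative.toAdd (α := ZMod 2)), Nat.card_zmod]
      simp)
  obtain ⟨b, hb⟩ := h3.2 (1, Multiplicative.ofAdd 1) (by
    ext1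
    · simp
    · exact hsq _)
  have h4 := congrArg Prod.snd hb
  rw [Prod.pow_snd, hsq] at h4
  have h5 : (1 : Multiplicative (ZMod 2)) = Multiplicative.ofAdd 1 := h4
  exact absurd h5 (by decide)

theorem grp_b {A : Type*} [CommGroup A] [Finite A] {n : ℕ} (hn : 0 < n)
    (hc : Nat.card A = 32 * n) (he : ∀ x : A, x ^ (2 * n) = 1)
    (h2 : Nat.card {x : A // x ^ 2 = 1} ≤ 8)
    (h4 : Nat.card {x : A // x ^ 2 = 1 ∧ ∃ y : A, x = y ^ 2} ≤ 4) (y : A) (hy : (y ^ 2) ^ 2 = 1) :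
    ∃ z : A, y ^ 2 = z ^ 4 := by
  classical
  obtain ⟨r, hr⟩ := sq_card (A := A) (N := 4 * n) (j := 3) (by rw [hc]; ring) (by simpa using h2)
  obtain ⟨B, hB⟩ : ∃ B : Subgroup A, B = (powMonoidHom 2 : A →* A).range := ⟨_, rfl⟩
  rw [← hB] at hr
  have hBm : ∀ a : A, a ∈ B → ∃ y : A, y ^ 2 = a := fun a ha => by
    rw [hB, MonoidHom.mem_range] at ha
    exact ha
  have hmem : ∀ b : B, ∃ y : A, y ^ 2 = b.1 := fun b => hBm b.1 b.2
  have hyB : y ^ 2 ∈ B := by
    rw [hB, MonoidHom.mem_range]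
    exact ⟨y, rfl⟩
  have h3 := Rf.gt (G := B) (n := r * n) (by rw [hr]; ring) (by
    intro b
    obtain ⟨y, hy⟩ := hmem b
    apply Subtype.ext
    rw [Subgroup.coe_pow, ← hy, ← pow_mul, Subgroup.coe_one]
    have e : 2 * (r * n) = (2 * n) * r := by ring
    rw [e, pow_mul, he, one_pow]) (by
      refine le_trans ?_ h4
      let φ : {g : B // g ^ 2 = 1} → {x : A // x ^ 2 = 1 ∧ ∃ y : A, x = y ^ 2} := fun g =>
        ⟨g.1.1, by
          have := congrArg Subtype.val g.2
          rwa [Subgroup.coe_pow, Subgroup.coe_one] at this, by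
          obtain ⟨y, hy⟩ := hmem g.1
          exact ⟨y, hy.symm⟩⟩
      refine Nat.card_le_card_of_injective φ ?_
      rintro ⟨b, hb⟩ ⟨b', hb'⟩ h
      have h5 : (φ ⟨b, hb⟩).1 = (φ ⟨b', hb'⟩).1 := by rw [h]
      exact Subtype.ext (Subtype.ext h5))
  obtain ⟨b, hb⟩ := h3.2 ⟨y ^ 2, hyB⟩ (Subtype.ext hy)
  obtain ⟨z, hz⟩ := hmem b
  refine ⟨z, ?_⟩
  have h5 : b.1 ^ 2 = y ^ 2 := congrArg Subtype.val hb
  rw [← h5, ← hz, ← pow_mul]

end Pool.Agent.Work.MP_8efaaa_nt.Rg
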