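import Mathlib
import Pool.Agent.Work.MP_8efaaa_nt.Rg.Defs
import Pool.Agent.Work.MP_8efaaa_nt.Rg.ANu
import Pool.Agent.Work.MP_8efaaa_nt.Rg.ANm
import Pool.Agent.Work.MP_8efaaa_nt.Rf.Gd
import Pool.Agent.Work.MP_8efaaa_nt.Rf.Card
import Pool.Agent.Work.MP_8efaaa_nt.Rf.GTwo

/-!
# Module ATwo: the number of elements of order two of the group of the odd ideals

`G, g0` from `exists_gd`, `card_two`: `#{x : G // x ^ 2 = 1} ≤ 2 #(dv a)` (`dv a` is the filter there). `ν` from `a_norm`,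
`ι` from `a_incl`.
`a_two`: let `H` be the subgroup of the `x : A` with `x ^ 2 = 1`. For `x = g c` in `H`: `g (c * c) = g ⊤`
gives `(α) c ^ 2 = (β)` with good `α, β`, so `N c = 1` modulo `4` (`norm4_of_sq`) and `ν x` is `1` or `5`. The kernel
of `ν` on `H` consists of `ι y`, `y ^ 2 = 1` (`ν (g c) = 1` means `N c % 8 = 1`, `g c = ι (g0 c)`, `ι` injective), at
most `2 #(dv a)` elements, the image has at most two elements, so `#H ≤ 4 #(dv a)`.
`a_two_sq`: `x = y ^ 2`, `y = g b`: `x = g (b * b)`, `N (b * b) = (N b) ^ 2 = 1` modulo `8`, so `x = ι z`, `z ^ 2 = 1`.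
-/

set_option autoImplicit false

namespace Pool.Agent.Work.MP_8efaaa_nt.Rg

open NumberField Pool.Agent.Work.MP_8efaaa_nt.R Pool.Agent.Work.MP_8efaaa_nt.Rf

universe u

variable {K : Type u} [Field K] [NumberField K] {a : ℕ} {s : K}

private theorem odd_mul {b c : Ideal (𝓞 K)} (hb : OddI b) (hc : OddI c) : OddI (b * c) := by
  unfold OddI at *
  rw [map_mul]
  exact hb.mul hc

private theorem odd_top : OddI (⊤ : Ideal (𝓞 K)) := by
  unfold OddI
  rw [Ideal.absNorm_top]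
  exact odd_one

private theorem card_le (hb : Base5 K a s) {A : Type*} [CommGroup A] [Finite A]
    {G : Type*} [CommGroup G] {g0 : Ideal (𝓞 K) → G} (h0 : GDt s G g0) {ι : G →* A}
    (hι : Function.Injective ι) (P : A → Prop) (hP : ∀ x, P x → x ^ 2 = 1 ∧ ∃ z, ι z = x) :
    Nat.card {x : A // P x} ≤ 2 * (dv a).card := by
  classical
  haveI : Finite G := Finite.of_injective ι hι
  refine le_trans ?_ (card_two hb h0)
  have hex : ∀ x : {x : A // P x}, ∃ z : {y : G // y ^ 2 = 1}, ι (z : G) = x := by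
    rintro ⟨x, hx⟩
    obtain ⟨h2, z, hz⟩ := hP x hx
    refine ⟨⟨z, hι ?_⟩, hz⟩
    rw [map_pow, hz, h2, map_one]
  choose φ hφ using hex
  refine Nat.card_le_card_of_injective φ ?_
  intro x y hxy
  apply Subtype.ext
  rw [← hφ x, ← hφ y, hxy]

theorem a_two (hb : Base5 K a s) (hq : ∀ q : ℕ, q.Prime → q ∣ a → q % 4 = 1)
    {A : Type*} [CommGroup A] [Finite A] {g : Ideal (𝓞 K) → A} (h : ADt s A g) :
    Nat.card {x : A // x ^ 2 = 1} ≤ 4 * (dv a).card := by
  classical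
  obtain ⟨S, hS, -⟩ := exists_S hb
  obtain ⟨G, _, g0, h0⟩ := exists_gd hb
  obtain ⟨ι, hι, hι'⟩ := a_incl hb h h0
  obtain ⟨ν, hν⟩ := a_norm hb h
  -- the subgroup of the elements of order two
  let H : Subgroup A := (powMonoidHom 2 : A →* A).ker
  have hH : ∀ x : A, x ∈ H ↔ x ^ 2 = 1 := fun x => Iff.rfl
  have hcard : Nat.card {x : A // x ^ 2 = 1} = Nat.card H := rfl
  let μ : H →* (ZMod 8)ˣ := ν.comp H.subtype
  have hval : ∀ x : H, ((μ x : (ZMod 8)ˣ) : ZMod 8) = 1 ∨ ((μ x : (ZMod 8)ˣ) : ZMod 8) = 5 := by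
    rintro ⟨x, hx⟩
    obtain ⟨c, hc, rfl⟩ := h.surj x
    have hsq : g (c * c) = g ⊤ := by
      rw [h.mul c c hc hc, a_top h, ← pow_two]
      exact hx
    obtain ⟨α, β, hα, hβ, hαβ⟩ := (h.eq_iff _ _ (odd_mul hc hc) odd_top).1 hsq
    have h4 : Ideal.absNorm c % 4 = 1 := by
      refine norm4_of_sq hb hS hq hc hα hβ ?_
      rw [pow_two, hαβ, Ideal.mul_top]
    have h8 : Ideal.absNorm c % 8 = 1 ∨ Ideal.absNorm c % 8 = 5 := by omega
    have hμ : ((μ ⟨g c, hx⟩ : (ZMod 8)ˣ) : ZMod 8) = (Ideal.absNorm c : ZMod 8) := hν c hc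
    rw [hμ]
    rcases h8 with h8 | h8
    · left
      have := (ZMod.natCast_eq_natCast_iff' (Ideal.absNorm c) 1 8).2 (by omega)
      rw [this, Nat.cast_one]
    · right
      have := (ZMod.natCast_eq_natCast_iff' (Ideal.absNorm c) 5 8).2 (by omega)
      rw [this]
      norm_num
  have hrange : Nat.card μ.range ≤ 2 := by
    let f : μ.range → {v : ZMod 8 // v = 1 ∨ v = 5} := fun t =>
      ⟨((t : (ZMod 8)ˣ) : ZMod 8), by
        obtain ⟨t, x, rfl⟩ := t
        exact hval x⟩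
    have hf : Function.Injective f := by
      intro t t' htt
      have h1 : (((t : (ZMod 8)ˣ)) : ZMod 8) = ((t' : (ZMod 8)ˣ) : ZMod 8) :=
        congrArg Subtype.val htt
      exact Subtype.ext (Units.ext h1)
    refine (Nat.card_le_card_of_injective f hf).trans ?_
    rw [Nat.card_eq_fintype_card]
    decide
  have hker : Nat.card μ.ker ≤ 2 * (dv a).card := by
    let P : A → Prop := fun x => x ^ 2 = 1 ∧ ν x = 1
    have h1 : Nat.card {x : A // P x} ≤ 2 * (dv a).card := by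
      refine card_le hb h0 hι P ?_
      rintro x ⟨hx, hx1⟩
      refine ⟨hx, ?_⟩
      obtain ⟨c, hc, rfl⟩ := h.surj x
      have h2 : (Ideal.absNorm c : ZMod 8) = 1 := by
        rw [← hν c hc, hx1, Units.val_one]
      have h3 : Ideal.absNorm c % 8 = 1 := by
        have h4 : ((Ideal.absNorm c : ℕ) : ZMod 8) = ((1 : ℕ) : ZMod 8) := by
          rw [h2, Nat.cast_one]
        have := (ZMod.natCast_eq_natCast_iff' _ _ _).1 h4
        omega
      exact ⟨g0 c, hι' c h3⟩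
    refine le_trans ?_ h1
    let ψ : μ.ker → {x : A // P x} := fun x => ⟨((x : H) : A), (x : H).2, x.2⟩
    refine Nat.card_le_card_of_injective ψ ?_
    intro x y hxy
    have : (((x : H) : A)) = ((y : H) : A) := congrArg (fun t : {x : A // P x} => (t : A)) hxy
    exact Subtype.ext (Subtype.ext this)
  rw [hcard, ← Subgroup.card_mul_index μ.ker, Subgroup.index_ker]
  calc Nat.card μ.ker * Nat.card μ.range ≤ (2 * (dv a).card) * 2 :=
        Nat.mul_le_mul hker hrange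
    _ = 4 * (dv a).card := by ring

theorem a_two_sq (hb : Base5 K a s) {A : Type*} [CommGroup A] [Finite A]
    {g : Ideal (𝓞 K) → A} (h : ADt s A g) :
    Nat.card {x : A // x ^ 2 = 1 ∧ ∃ y : A, x = y ^ 2} ≤ 2 * (dv a).card := by
  classical
  obtain ⟨G, _, g0, h0⟩ := exists_gd hb
  obtain ⟨ι, hι, hι'⟩ := a_incl hb h h0
  refine card_le hb h0 hι (fun x => x ^ 2 = 1 ∧ ∃ y : A, x = y ^ 2) ?_
  rintro x ⟨hx, y, rfl⟩
  refine ⟨hx, ?_⟩
  obtain ⟨b, hb', rfl⟩ := h.surj y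
  refine ⟨g0 (b * b), ?_⟩
  rw [hι' (b * b), h.mul b b hb' hb', pow_two]
  rw [map_mul]
  unfold OddI at hb'
  obtain ⟨k, hk⟩ := hb'
  rw [hk]
  have h1 : (2 * k + 1) * (2 * k + 1) = 4 * (k * (k + 1)) + 1 := by ring
  rw [h1]
  obtain ⟨m, hm⟩ := (Nat.even_mul_succ_self k).two_dvd
  have hm' : k * (k + 1) = 2 * m := hm
  rw [hm']
  omega

end Pool.Agent.Work.MP_8efaaa_nt.Rg
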