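import Mathlib
import Pool.Agent.Work.MP_8efaaa_nt.Rg.Defs
import Pool.Agent.Work.MP_8efaaa_nt.Rf.Gd

/-!
# Module Ad: construction of the group of all odd ideals

Copy the construction of `Rf/Gd.lean` (`exists_gd`) with the submonoid of the ideals with `OddI c`
(`Odd (Ideal.absNorm c)`) instead of those with `Ideal.absNorm c % 8 = 1`. Only the inverse changes: for odd `c`
with `n = N c`, `c' = c.map σ` (`Rf/Cj.lean`), `c c' = (n)`, so `c * (c' * (n)) = (n ^ 2)` and `n ^ 2` is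
`1` modulo `8` (`good_nat`): the inverse of `c` is `c' * (n)` (norm `n * n ^ 2`, odd).
-/

set_option autoImplicit false

namespace Pool.Agent.Work.MP_8efaaa_nt.Rg

open NumberField Pool.Agent.Work.MP_8efaaa_nt.R Pool.Agent.Work.MP_8efaaa_nt.Rf

universe u

variable {K : Type u} [Field K] [NumberField K] {a : ℕ} {s : K}

variable (K) in
/-- the monoid of the ideals of odd norm -/
private def MO : Submonoid (Ideal (𝓞 K)) where
  carrier := {c | Odd (Ideal.absNorm c)}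
  one_mem' := by
    show Odd (Ideal.absNorm (1 : Ideal (𝓞 K)))
    simp
  mul_mem' := by
    intro b c hb hc
    show Odd (Ideal.absNorm (b * c))
    have hb' : Odd (Ideal.absNorm b) := hb
    have hc' : Odd (Ideal.absNorm c) := hc
    rw [map_mul]
    exact hb'.mul hc'

omit [NumberField K] in
private theorem span_mul_span (α β : 𝓞 K) :
    Ideal.span {α * β} = Ideal.span {α} * Ideal.span {β} :=
  (Ideal.span_singleton_mul_span_singleton α β).symm

private def con (hb : Base5 K a s) : Con (MO K) where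
  r b c := ∃ α β : 𝓞 K, Good s α ∧ Good s β ∧
    Ideal.span {α} * (b : Ideal (𝓞 K)) = Ideal.span {β} * (c : Ideal (𝓞 K))
  iseqv :=
    { refl := fun b => ⟨((1 : ℕ) : 𝓞 K), ((1 : ℕ) : 𝓞 K), good_nat s (Or.inl rfl),
        good_nat s (Or.inl rfl), rfl⟩
      symm := fun {b c} ⟨α, β, h1, h2, h3⟩ => ⟨β, α, h2, h1, h3.symm⟩
      trans := fun {b c d} ⟨α, β, h1, h2, h3⟩ ⟨α', β', h1', h2', h3'⟩ =>
        ⟨α' * α, β * β', h1'.mul hb h1, h2.mul hb h2', by
          rw [span_mul_span, span_mul_span, mul_assoc, h3, mul_left_comm, h3', ← mul_assoc]⟩ }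
  mul' := fun {b c b' c'} ⟨α, β, h1, h2, h3⟩ ⟨α', β', h1', h2', h3'⟩ =>
    ⟨α * α', β * β', h1.mul hb h1', h2.mul hb h2', by
      rw [span_mul_span, span_mul_span]
      show Ideal.span {α} * Ideal.span {α'} * ((b : Ideal (𝓞 K)) * (b' : Ideal (𝓞 K))) =
        Ideal.span {β} * Ideal.span {β'} * ((c : Ideal (𝓞 K)) * (c' : Ideal (𝓞 K)))
      rw [mul_mul_mul_comm, h3, h3', mul_mul_mul_comm]⟩

private theorem con_iff (hb : Base5 K a s) (b c : MO K) :
    ((b : (con hb).Quotient) = c) ↔ ∃ α β : 𝓞 K, Good s α ∧ Good s β ∧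
      Ideal.span {α} * (b : Ideal (𝓞 K)) = Ideal.span {β} * (c : Ideal (𝓞 K)) :=
  Con.eq (con hb)

private theorem odd_mul_self {n : ℕ} (h : Odd n) : (n * n) % 8 = 1 := by
  have h1 : n % 8 = 1 ∨ n % 8 = 3 ∨ n % 8 = 5 ∨ n % 8 = 7 := by
    rw [Nat.odd_iff] at h
    omega
  rcases h1 with h1 | h1 | h1 | h1 <;> simp [Nat.mul_mod, h1]

private theorem con_unit (hb : Base5 K a s) (x : (con hb).Quotient) : IsUnit x := by
  induction x using Con.induction_on with
  | H c =>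
    obtain ⟨S, hS, -⟩ := exists_Q5 hb
    obtain ⟨σ, -, h1, h2⟩ := exists_cj hb hS
    have hc : Odd (Ideal.absNorm (c : Ideal (𝓞 K))) := c.2
    have hc' : Odd (Ideal.absNorm ((c : Ideal (𝓞 K)).map (σ : 𝓞 K →+* 𝓞 K))) := by
      rw [h2]
      exact hc
    refine IsUnit.of_mul_eq_one
      (((⟨(c : Ideal (𝓞 K)).map (σ : 𝓞 K →+* 𝓞 K) *
          ((c : Ideal (𝓞 K)) * (c : Ideal (𝓞 K)).map (σ : 𝓞 K →+* 𝓞 K)),
        (MO K).mul_mem hc' ((MO K).mul_mem hc hc')⟩ : MO K) : (con hb).Quotient)) ?_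
    rw [← Con.coe_mul, ← Con.coe_one, con_iff]
    refine ⟨((1 : ℕ) : 𝓞 K), ((Ideal.absNorm (c : Ideal (𝓞 K)) *
        Ideal.absNorm (c : Ideal (𝓞 K)) : ℕ) : 𝓞 K),
      good_nat s (Or.inl rfl), good_nat s (Or.inl (odd_mul_self hc)), ?_⟩
    show Ideal.span {((1 : ℕ) : 𝓞 K)} *
      ((c : Ideal (𝓞 K)) * ((c : Ideal (𝓞 K)).map (σ : 𝓞 K →+* 𝓞 K) *
        ((c : Ideal (𝓞 K)) * (c : Ideal (𝓞 K)).map (σ : 𝓞 K →+* 𝓞 K)))) =
      Ideal.span {((Ideal.absNorm (c : Ideal (𝓞 K)) *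
        Ideal.absNorm (c : Ideal (𝓞 K)) : ℕ) : 𝓞 K)} * 1
    rw [← mul_assoc (c : Ideal (𝓞 K)), h1, mul_one, Nat.cast_one, Ideal.span_singleton_one,
      Ideal.top_mul, Nat.cast_mul, span_mul_span]

theorem exists_ad (hb : Base5 K a s) :
    ∃ (A : Type u) (_ : CommGroup A) (g : Ideal (𝓞 K) → A), ADt s A g := by
  classical
  let _ : CommGroup (con hb).Quotient := commGroupOfIsUnit (con_unit hb)
  refine ⟨(con hb).Quotient, inferInstance, fun c =>
    if h : Odd (Ideal.absNorm c) then ((⟨c, h⟩ : MO K) : (con hb).Quotient) else 1, ⟨?_, ?_, ?_⟩⟩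
  · intro x
    induction x using Con.induction_on with
    | H c =>
      have hc : Odd (Ideal.absNorm (c : Ideal (𝓞 K))) := c.2
      exact ⟨c, hc, dif_pos hc⟩
  · intro b c h1 h2
    have h1' : Odd (Ideal.absNorm b) := h1
    have h2' : Odd (Ideal.absNorm c) := h2
    have h3 : Odd (Ideal.absNorm (b * c)) := (MO K).mul_mem h1 h2
    simp only [dif_pos h1', dif_pos h2', dif_pos h3]
    rfl
  · intro b c h1 h2
    have h1' : Odd (Ideal.absNorm b) := h1
    have h2' : Odd (Ideal.absNorm c) := h2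
    simp only [dif_pos h1', dif_pos h2']
    exact con_iff hb ⟨b, h1⟩ ⟨c, h2⟩

end Pool.Agent.Work.MP_8efaaa_nt.Rg
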