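import Mathlib
import Pool.Agent.Work.MP_8efaaa_nt.Rg.Defs
import Pool.Agent.Work.MP_8efaaa_nt.Rg.Ad
import Pool.Agent.Work.MP_8efaaa_nt.Rg.ANu
import Pool.Agent.Work.MP_8efaaa_nt.Rg.ACard
import Pool.Agent.Work.MP_8efaaa_nt.Rg.ATwo
import Pool.Agent.Work.MP_8efaaa_nt.Rg.AGrp
import Pool.Agent.Work.MP_8efaaa_nt.Rg.ACon
import Pool.Agent.Work.MP_8efaaa_nt.Rg.AConD
import Pool.Agent.Work.MP_8efaaa_nt.Rf.Two

/-!
# Module KOut: the conics
-/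

set_option autoImplicit false

namespace Pool.Agent.Work.MP_8efaaa_nt.Rg

open NumberField Pool.Agent.Work.MP_8efaaa_nt.R Pool.Agent.Work.MP_8efaaa_nt.Rf

universe u

variable {K : Type u} [Field K] [NumberField K] {a : ℕ} {s : K}

private theorem odd_t4 (hb : Base5 K a s) {δ : 𝓞 K} (h : T4 s δ) : OddI (Ideal.span {δ}) := by
  have := h.norm hb
  unfold OddI
  rw [Nat.odd_iff]
  omega

private theorem three_t4 (s : K) : T4 s (3 : 𝓞 K) := by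
  have := t4_nat s (K := K) (m := 3) (by decide)
  simpa using this

private theorem tau_sq (hb : Base5 K a s) {A : Type*} [CommGroup A] {g : Ideal (𝓞 K) → A}
    (h : ADt s A g) : g (Ideal.span {(3 : 𝓞 K)}) * g (Ideal.span {(3 : 𝓞 K)}) = 1 := by
  have h3 := odd_t4 hb (three_t4 s (K := K))
  rw [← h.mul _ _ h3 h3, Ideal.span_singleton_mul_span_singleton]
  apply a_good hb h
  have := good_nat s (K := K) (m := 9) (Or.inl rfl)
  have e : (3 : 𝓞 K) * 3 = ((9 : ℕ) : 𝓞 K) := by norm_num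
  rw [e]
  exact this

/-- the two adic analysis of a square of order two -/
private theorem sq_two (hb : Base5 K a s) {S : 𝓞 K} (hS : algebraMap (𝓞 K) K S = s)
    {A : Type*} [CommGroup A] {g : Ideal (𝓞 K) → A} (h : ADt s A g)
    {b : Ideal (𝓞 K)} (hbo : OddI b) (h1 : (g b ^ 2) ^ 2 = 1) (h2 : g b ^ 2 ≠ 1)
    (h3 : g b ^ 2 ≠ g (Ideal.span {(3 : 𝓞 K)})) :
    ∃ d : ℕ, d ∣ a ∧ d % 8 = 1 ∧ 1 < d ∧ ∃ α β : 𝓞 K, T4 s α ∧ T4 s β ∧
      Ideal.span {α} * rI S d = Ideal.span {β} * b ^ 2 := by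
  have hn : Ideal.absNorm (b ^ 2) % 8 = 1 := by
    unfold OddI at hbo
    rw [map_pow]
    obtain ⟨k, hk⟩ := hbo
    have h4 : Ideal.absNorm b % 8 = 1 ∨ Ideal.absNorm b % 8 = 3 ∨ Ideal.absNorm b % 8 = 5 ∨
        Ideal.absNorm b % 8 = 7 := by omega
    rcases h4 with h4 | h4 | h4 | h4 <;> rw [Nat.pow_mod, h4]
  obtain ⟨hbo2, hbp⟩ := a_pow h hbo 2
  obtain ⟨hbo4, hbp4⟩ := a_pow h hbo2 2
  have htop : OddI (⊤ : Ideal (𝓞 K)) := by
    unfold OddI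
    rw [Ideal.absNorm_top]
    exact odd_one
  obtain ⟨α, β, hα, hβ, hαβ⟩ := (h.eq_iff _ _ hbo4 htop).1 (by rw [hbp4, hbp, h1, a_top h])
  rw [Ideal.mul_top] at hαβ
  obtain ⟨d, hda, hd8, α', β', hα', hβ', h5⟩ := two_adic hb hS hn hα hβ hαβ
  refine ⟨d, hda, hd8, ?_, β', α', hβ', hα', h5.symm⟩
  by_contra h6
  have hd1 : d = 1 := by omega
  rw [hd1, rI_one, Ideal.mul_top] at h5
  have h7 : g (Ideal.span {α'}) * g b ^ 2 = g (Ideal.span {β'}) := by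
    rw [← hbp, ← h.mul _ _ (odd_t4 hb hα') hbo2, h5]
  have hτ := tau_sq hb h
  rcases a_t4 hb h hα' with h8 | h8 <;> rcases a_t4 hb h hβ' with h9 | h9 <;>
    rw [h8, h9] at h7
  · exact h2 (by simpa using h7)
  · exact h3 (by simpa using h7)
  · apply h3
    have := congrArg (fun x => g (Ideal.span {(3 : 𝓞 K)}) * x) h7
    simpa [← mul_assoc, hτ] using this
  · exact h2 (by simpa using h7)

theorem k_out (hb : Base5 K a s) (hq : ∀ q : ℕ, q.Prime → q ∣ a → q % 4 = 1)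
    (hno : ∀ b : Ideal (𝓞 K), OddI b → ∃ x y : ℤ, ∃ δ : 𝓞 K,
      algebraMap (𝓞 K) K δ = x + 4 * y * s ∧
      b ^ (Fintype.card (ClassGroup (𝓞 K)) / 2) = Ideal.span {δ} ∧ ¬ e8 (x + 4 * y) = -1)
    (hD : (dv a).card ≤ 4) :
    (∃ d e : ℕ, d * e = a ∧ d % 8 = 1 ∧ 1 < d ∧ ∃ x y z : ℤ,
      d * x ^ 2 + e * y ^ 2 = z ^ 2 ∧ IsCoprime x y) ∧
    ((dv a).card ≤ 2 → ∃ d e : ℕ, d * e = a ∧ d % 8 = 1 ∧ 1 < d ∧ ∃ x y w : ℤ,
      d * x ^ 2 + e * y ^ 2 = w ^ 4 ∧ IsCoprime x y ∧ Odd x ∧ 4 ∣ y) := by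
  classical
  obtain ⟨S, hS, -⟩ := exists_S hb
  obtain ⟨A, hAc, g, h⟩ := exists_ad hb
  obtain ⟨hfin, hcard⟩ := card_ad hb h
  obtain ⟨H, hH, -, -⟩ := exists_half hb
  set h0 := Fintype.card (ClassGroup (𝓞 K)) with hh0
  have h0pos : 0 < h0 := Fintype.card_pos
  have h02 : 2 ∣ h0 := ⟨_, hH.symm⟩
  have hall : ∀ x : A, x ^ (h0 / 2) = 1 := by
    intro x
    obtain ⟨c, hc, rfl⟩ := h.surj x
    obtain ⟨x, y, δ, hδ, hcn, he⟩ := hno c hc
    obtain ⟨hnorm, hgp⟩ := a_pow h hc (h0 / 2)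
    rw [hcn] at hnorm
    have hn2 := absNorm_pq hb (x := δ) (p := x) (q := 4 * y) (by
      rw [hδ]
      push_cast
      ring)
    have hxo : Odd x := by
      rcases Int.even_or_odd x with hx | hx
      · exfalso
        obtain ⟨u, hu⟩ := hx
        have h5 : ((Ideal.absNorm (Ideal.span {δ}) : ℕ) : ℤ) = 4 * (u ^ 2 + 4 * (a * y ^ 2)) := by
          rw [hn2, hu]
          ring
        unfold OddI at hnorm
        obtain ⟨k, hk⟩ := hnorm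
        omega
      · exact hx
    have he1 : e8 (x + 4 * y) = 1 := by
      unfold e8 at he ⊢
      split_ifs at he ⊢ with h6
      · rfl
      · exact absurd rfl he
    have hgood : Good s δ := ⟨x, y, hxo, hδ, he1⟩
    rw [← hgp, hcn, a_good hb h hgood]
  have h4 : 4 ∣ h0 := four_dvd h0pos h02 hcard hall
  obtain ⟨n, hn⟩ := h4
  have hn0 : 0 < n := by omega
  have hc32 : Nat.card A = 32 * n := by rw [hcard, hn]; ring
  have hex : ∀ x : A, x ^ (2 * n) = 1 := by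
    intro x
    have := hall x
    have e : h0 / 2 = 2 * n := by omega
    rwa [e] at this
  have htwo := a_two hb hq h
  obtain ⟨y, hy1, hy2, hy3⟩ := grp_a hn0 hc32 hex (by omega) (g (Ideal.span {(3 : 𝓞 K)}))
  obtain ⟨b, hbo, rfl⟩ := h.surj y
  constructor
  · obtain ⟨d, ⟨e, he⟩, hd8, hd1, α, β, hα, hβ, hαβ⟩ := sq_two hb hS h hbo hy1 hy2 hy3
    exact ⟨d, e, he.symm, hd8, hd1, conic_two hb hS he.symm hbo hα hβ hαβ⟩
  · intro hD2
    obtain ⟨z, hz⟩ := grp_b hn0 hc32 hex (by omega) ((a_two_sq hb h).trans (by omega)) (g b) hy1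
    obtain ⟨c, hco, rfl⟩ := h.surj z
    obtain ⟨hco2, hcp2⟩ := a_pow h hco 2
    have hz' : g b ^ 2 = g (c ^ 2) ^ 2 := by
      rw [hz, hcp2, ← pow_mul]
    rw [hz'] at hy1 hy2 hy3
    obtain ⟨d, ⟨e, he⟩, hd8, hd1, α, β, hα, hβ, hαβ⟩ := sq_two hb hS h hco2 hy1 hy2 hy3
    rw [← pow_mul] at hαβ
    exact ⟨d, e, he.symm, hd8, hd1, conic_four hb hS he.symm hco hα hβ hαβ⟩

end Pool.Agent.Work.MP_8efaaa_nt.Rg
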