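import Mathlib
import Pool.Agent.Work.MP_8efaaa_nt.Rg.Defs
import Pool.Agent.Work.MP_8efaaa_nt.Rf.FDi

/-!
# Module FDj: four prime factors, primes with given symbols

`four_primes`: all prime factors of `a` are `1` modulo `4`, so the divisors of `a` are `1` or `5` modulo `8` and
`r` maps to `a / r`, from the divisors `1` modulo `8` to those `5` modulo `8`, injectively: `2 #(dv a) ≤ #divisors =
2 ^ k`, `k` the number of the prime factors (`a` squarefree: `Nat.card_divisors`,
or `Squarefree.cardDivisors..`, or `Nat.sum_divisors_filter_squarefree`, or the bijection of the divisors with the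
subsets of `a.primeFactors`). `#(dv a) > 4` gives `k ≥ 4`: four distinct prime factors.
`exists_prime_two`: the private `exists_two` of `Rf/FDi.lean` (copy it with its private lemmas).
-/

set_option autoImplicit false

namespace Pool.Agent.Work.MP_8efaaa_nt.Rg

private theorem jac_prod (z : ℤ) (s : Finset ℕ) (hs : ∀ q ∈ s, q ≠ 0) :
    jacobiSym z (∏ q ∈ s, q) = ∏ q ∈ s, jacobiSym z q := by
  classical
  induction s using Finset.induction_on with
  | empty => simp
  | insert q s hq ih =>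
    rw [Finset.prod_insert hq, Finset.prod_insert hq]
    have h1 : q ≠ 0 := hs q (Finset.mem_insert_self q s)
    have h2 : ∏ q ∈ s, q ≠ 0 := Finset.prod_ne_zero_iff.2 fun r hr =>
      hs r (Finset.mem_insert_of_mem hr)
    haveI : NeZero q := ⟨h1⟩
    haveI : NeZero (∏ q ∈ s, q) := ⟨h2⟩
    rw [jacobiSym.mul_right, ih fun r hr => hs r (Finset.mem_insert_of_mem hr)]

private theorem jac_sf (z : ℤ) {m : ℕ} (hm : Squarefree m) :
    jacobiSym z m = ∏ q ∈ m.primeFactors, jacobiSym z q := by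
  conv_lhs => rw [← Nat.prod_primeFactors_of_squarefree hm]
  exact jac_prod z _ fun q hq => (Nat.prime_of_mem_primeFactors hq).ne_zero

private theorem exists_res (q : ℕ) (hq : q.Prime) (h2 : q ≠ 2) :
    ∃ c : ℕ, jacobiSym c q = -1 := by
  haveI : Fact q.Prime := ⟨hq⟩
  obtain ⟨x, hx⟩ := FiniteField.exists_nonsquare (F := ZMod q) (by
    rw [ZMod.ringChar_zmod_n]; exact h2)
  refine ⟨x.val, ?_⟩
  rw [← jacobiSym.legendreSym.to_jacobiSym, legendreSym.eq_neg_one_iff]
  rw [Int.cast_natCast, ZMod.natCast_zmod_val]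
  exact hx

private theorem mod4_dvd {a : ℕ} (ha0 : a ≠ 0)
    (hq : ∀ q : ℕ, q.Prime → q ∣ a → q % 4 = 1) (d : ℕ) (hd : d ∣ a) : d % 4 = 1 := by
  induction d using Nat.recOnMul with
  | zero => exact absurd (Nat.eq_zero_of_zero_dvd hd) ha0
  | one => rfl
  | prime p hp => exact hq p hp hd
  | mul x y hx hy =>
    rw [Nat.mul_mod, hx ((dvd_mul_right x y).trans hd), hy ((dvd_mul_left y x).trans hd)]

theorem four_primes {a : ℕ} (hsf : Squarefree a) (ha : a % 8 = 5)
    (hq : ∀ q : ℕ, q.Prime → q ∣ a → q % 4 = 1) (hD : 4 < (dv a).card) :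
    ∃ p0 p1 p2 p3 : ℕ, (p0.Prime ∧ p0 ∣ a) ∧ (p1.Prime ∧ p1 ∣ a) ∧ (p2.Prime ∧ p2 ∣ a) ∧
      (p3.Prime ∧ p3 ∣ a) ∧ p0 ≠ p1 ∧ p0 ≠ p2 ∧ p0 ≠ p3 ∧ p1 ≠ p2 ∧ p1 ≠ p3 ∧ p2 ≠ p3 := by
  classical
  have ha0 : a ≠ 0 := hsf.ne_zero
  -- the divisors which are 5 modulo 8
  have hle : (dv a).card ≤ (a.divisors.filter (fun d => ¬ d % 8 = 1)).card := by
    refine Finset.card_le_card_of_injOn (fun d => a / d) ?_ ?_
    · intro d hd
      have hd' : d ∈ dv a := hd
      rw [dv, Finset.mem_filter, Nat.mem_divisors] at hd'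
      obtain ⟨⟨⟨e, he⟩, -⟩, h8⟩ := hd'
      have hd0 : 0 < d := by omega
      have h1 : a / d = e := by rw [he, Nat.mul_div_cancel_left _ hd0]
      rw [Finset.coe_filter, Set.mem_setOf_eq, Nat.mem_divisors]
      simp only [h1]
      refine ⟨⟨⟨d, by rw [he, mul_comm]⟩, ha0⟩, ?_⟩
      intro he8
      rw [he, Nat.mul_mod, h8, he8] at ha
      norm_num at ha
    · intro d hd e he hde
      have hd' : d ∈ dv a := hd
      have he' : e ∈ dv a := he
      rw [dv, Finset.mem_filter, Nat.mem_divisors] at hd' he'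
      simp only at hde
      rw [← Nat.div_div_self hd'.1.1 ha0, hde, Nat.div_div_self he'.1.1 ha0]
  have hsum : (dv a).card + (a.divisors.filter (fun d => ¬ d % 8 = 1)).card = a.divisors.card := by
    rw [dv]
    exact Finset.card_filter_add_card_filter_not _
  have hcard : a.divisors.card = 2 ^ a.primeFactors.card := by
    rw [Nat.card_divisors ha0, Finset.prod_congr rfl (g := fun _ => 2), Finset.prod_const]
    intro p hp
    have h1 : a.factorization p ≤ 1 := (Nat.squarefree_iff_factorization_le_one ha0).1 hsf p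
    have h2 : 0 < a.factorization p := (Nat.prime_of_mem_primeFactors hp).factorization_pos_of_dvd
      ha0 (Nat.dvd_of_mem_primeFactors hp)
    omega
  have h4 : 4 ≤ a.primeFactors.card := by
    by_contra h
    have h3 : a.primeFactors.card ≤ 3 := by omega
    have h5 : 2 ^ a.primeFactors.card ≤ 2 ^ 3 := Nat.pow_le_pow_right (by norm_num) h3
    omega
  have hm : ∀ i : Fin 4, (a.primeFactors.orderEmbOfCardLe h4 i).Prime ∧
      a.primeFactors.orderEmbOfCardLe h4 i ∣ a := fun i =>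
    ⟨Nat.prime_of_mem_primeFactors (Finset.orderEmbOfCardLe_mem _ h4 i),
      Nat.dvd_of_mem_primeFactors (Finset.orderEmbOfCardLe_mem _ h4 i)⟩
  have hne : ∀ i j : Fin 4, i ≠ j → a.primeFactors.orderEmbOfCardLe h4 i ≠
      a.primeFactors.orderEmbOfCardLe h4 j := fun i j hij h =>
    hij ((a.primeFactors.orderEmbOfCardLe h4).injective h)
  exact ⟨_, _, _, _, hm 0, hm 1, hm 2, hm 3, hne 0 1 (by decide), hne 0 2 (by decide),
    hne 0 3 (by decide), hne 1 2 (by decide), hne 1 3 (by decide), hne 2 3 (by decide)⟩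

theorem exists_prime_two {a : ℕ} (hsf : Squarefree a) (hod : Odd a) {x y : ℕ}
    (hx : x.Prime) (hy : y.Prime) (hxy : x ≠ y) (N : ℕ) :
    ∃ p : ℕ, p.Prime ∧ N < p ∧ ∀ m, m ∣ a →
      jacobiSym p m = (if x ∣ m then -1 else 1) * (if y ∣ m then -1 else 1) := by
  classical
  have ha0 : a ≠ 0 := hsf.ne_zero
  have hodd : ∀ q ∈ a.primeFactors, q ≠ 2 := by
    rintro q hq rfl
    have h1 := Nat.dvd_of_mem_primeFactors hq
    rw [Nat.odd_iff] at hod
    omega
  -- the residues
  have hc : ∀ q : ℕ, ∃ c : ℕ, q ∈ a.primeFactors →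
      jacobiSym c q = if q = x ∨ q = y then -1 else 1 := by
    intro q
    by_cases hq : q ∈ a.primeFactors
    · by_cases h : q = x ∨ q = y
      · obtain ⟨c, hc⟩ := exists_res q (Nat.prime_of_mem_primeFactors hq) (hodd q hq)
        exact ⟨c, fun _ => by rw [if_pos h]; exact hc⟩
      · exact ⟨1, fun _ => by rw [if_neg h, Nat.cast_one, jacobiSym.one_left]⟩
    · exact ⟨0, fun h => absurd h hq⟩
  choose c hc using hc
  have hcop : Set.Pairwise (a.primeFactors : Set ℕ) (Function.onFun Nat.Coprime fun q => q) := by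
    intro q hq r hr hqr
    exact (Nat.coprime_primes (Nat.prime_of_mem_primeFactors hq)
      (Nat.prime_of_mem_primeFactors hr)).2 hqr
  obtain ⟨r, hr⟩ := Nat.chineseRemainderOfFinset c (fun q => q) a.primeFactors
    (fun q hq => (Nat.prime_of_mem_primeFactors hq).ne_zero) hcop
  have hjac : ∀ (z : ℕ) (q : ℕ), q ∈ a.primeFactors → z ≡ c q [MOD q] →
      jacobiSym z q = if q = x ∨ q = y then -1 else 1 := by
    intro z q hq hz
    rw [← hc q hq]
    apply jacobiSym.mod_left'
    exact_mod_cast hz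
  -- r is a unit
  have hra : Nat.Coprime r a := by
    rw [Nat.coprime_comm]
    refine Nat.coprime_of_dvd fun q hq hqa hqr => ?_
    have hqm : q ∈ a.primeFactors := Nat.mem_primeFactors.2 ⟨hq, hqa, ha0⟩
    have h1 := hjac r q hqm (hr q hqm)
    have h2 : jacobiSym r q = 0 := by
      haveI : Fact q.Prime := ⟨hq⟩
      haveI : NeZero q := ⟨hq.ne_zero⟩
      rw [jacobiSym.eq_zero_iff_not_coprime]
      intro h3
      rw [Int.gcd_natCast_natCast] at h3
      have h4 : q ∣ Nat.gcd r q := Nat.dvd_gcd hqr dvd_rfl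
      rw [h3] at h4
      exact hq.one_lt.ne' (Nat.dvd_one.1 h4)
    rw [h2] at h1
    split_ifs at h1 <;> omega
  haveI : NeZero a := ⟨ha0⟩
  obtain ⟨p, hpN, hp, hpr⟩ := Nat.forall_exists_prime_gt_and_eq_mod
    ((ZMod.isUnit_iff_coprime r a).2 hra) N
  refine ⟨p, hp, hpN, fun m hm => ?_⟩
  have hmod : p ≡ r [MOD a] := (ZMod.natCast_eq_natCast_iff _ _ _).1 hpr
  have hm0 : m ≠ 0 := fun h => ha0 (by rw [h] at hm; exact Nat.eq_zero_of_zero_dvd hm)
  rw [jac_sf _ (hsf.squarefree_of_dvd hm)]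
  have h1 : ∀ q ∈ m.primeFactors, jacobiSym p q = (if q = x then -1 else 1) *
      (if q = y then -1 else 1) := by
    intro q hq
    have hqa : q ∈ a.primeFactors := Nat.primeFactors_mono hm ha0 hq
    rw [hjac p q hqa ((hmod.of_dvd (Nat.dvd_of_mem_primeFactors hqa)).trans (hr q hqa))]
    by_cases h2 : q = x
    · subst h2
      rw [if_pos (Or.inl rfl), if_pos rfl, if_neg hxy, mul_one]
    · by_cases h3 : q = y
      · subst h3
        rw [if_pos (Or.inr rfl), if_neg h2, if_pos rfl, one_mul]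
      · rw [if_neg (by tauto), if_neg h2, if_neg h3, one_mul]
  rw [Finset.prod_congr rfl h1, Finset.prod_mul_distrib]
  have h2 : ∀ x : ℕ, x.Prime → ∏ q ∈ m.primeFactors, (if q = x then (-1 : ℤ) else 1) =
      if x ∣ m then -1 else 1 := by
    intro x hx
    rw [Finset.prod_ite_eq']
    by_cases h3 : x ∣ m
    · rw [if_pos h3, if_pos (Nat.mem_primeFactors.2 ⟨hx, h3, hm0⟩)]
    · rw [if_neg h3, if_neg fun h4 => h3 (Nat.dvd_of_mem_primeFactors h4)]
  rw [h2 x hx, h2 y hy]

end Pool.Agent.Work.MP_8efaaa_nt.Rg
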