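import Mathlib

/-!
# Module FFac: factorization of `u ^ 2 - a v ^ 2 = n ^ 4` (pure number theory)

`a` squarefree, `5` modulo `8`, `n` odd, `n ≠ 1, -1`, `u` prime to `n`. `u ^ 2 = n ^ 4 + a v ^ 2`; `v` odd would give
`u ^ 2 = 1 + 5 = 6` modulo `8`; so `v` is even, `v = 2 w`, `u` odd, `w ≠ 0` (otherwise `u = ± n ^ 2`).
`U1 = (u + n ^ 2) / 2`, `U2 = (u - n ^ 2) / 2`, `U1 U2 = a w ^ 2`, `U1 - U2 = n ^ 2`, `U1 + U2 = u`, so `U1, U2` are
coprime, not `0`, of the same sign `t`. `U1 = t r f ^ 2`, `U2 = t r' g ^ 2` with `r, r' > 0`, `r r' = a`: for instance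
`r = gcd (a, U1)`, `r' = a / r` (`r'` is prime to `U1`, so divides `U2`: a squarefree), `U1 = r A`, `U2 = r' B`,
`A B = w ^ 2` with `A`, `B` coprime, so `A = t f ^ 2`, `B = t g ^ 2` (`Int.sq_of_isCoprime` or similar).
(`Rf/FPl.lean` contains the same factorization for `n` instead of `n ^ 2`; its private lemmas can be copied.)
`r f ^ 2 - r' g ^ 2 = t n ^ 2`; `r f` and `r' g` are coprime since `U1, U2` are.
-/

set_option autoImplicit false

namespace Pool.Agent.Work.MP_8efaaa_nt.Rg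

private theorem sq8 {n : ℤ} (hn : Odd n) : n ^ 2 % 8 = 1 := by
  obtain ⟨k, rfl⟩ := hn
  have h1 : (2 * k + 1) ^ 2 = 4 * (k * (k + 1)) + 1 := by ring
  obtain ⟨m, hm⟩ := Int.even_mul_succ_self k
  rw [h1, hm]
  omega

theorem fac4 {a : ℕ} (hsf : Squarefree a) (ha : a % 8 = 5) {u v n : ℤ} (hn : Odd n)
    (hn1 : n ≠ 1) (hn2 : n ≠ -1) (hun : IsCoprime u n) (h : u ^ 2 - a * v ^ 2 = n ^ 4) :
    ∃ r r' : ℕ, r * r' = a ∧ ∃ f g : ℤ, IsCoprime (r * f) (r' * g) ∧
      (r * f ^ 2 - r' * g ^ 2 = n ^ 2 ∨ r * f ^ 2 - r' * g ^ 2 = -n ^ 2) := by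
  have hn2o : Odd (n ^ 2) := hn.pow
  have hae : (a : ℤ) % 8 = 5 := by omega
  have ha0 : a ≠ 0 := by rintro rfl; simp at ha
  have hV : Even v := by
    by_contra hV
    rw [Int.not_even_iff_odd] at hV
    have h1 : (n ^ 2) ^ 2 % 8 = 1 := sq8 hn2o
    have h2 : v ^ 2 % 8 = 1 := sq8 hV
    have h3 : u ^ 2 % 8 = 6 := by
      have : u ^ 2 = (n ^ 2) ^ 2 + a * v ^ 2 := by linear_combination h
      rw [this, Int.add_emod, Int.mul_emod, hae, h1, h2]
      norm_num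
    rcases Int.even_or_odd u with hU' | hU'
    · obtain ⟨k, rfl⟩ := hU'
      have : (k + k) ^ 2 = 4 * k ^ 2 := by ring
      omega
    · have := sq8 hU'
      omega
  obtain ⟨W, hW⟩ := hV
  have hUodd : Odd u := by
    by_contra hU'
    rw [Int.not_odd_iff_even] at hU'
    have h1 : Even (u ^ 2) := by rw [sq]; exact Even.mul_right hU' _
    have h2 : Even ((n ^ 2) ^ 2) := by
      have h3 : (n ^ 2) ^ 2 = u ^ 2 - a * v ^ 2 := by linear_combination -h
      rw [h3, hW]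
      have : (a : ℤ) * (W + W) ^ 2 = 2 * (2 * (a * W ^ 2)) := by ring
      rw [this]
      exact h1.sub (even_two_mul _)
    have h3 : Odd ((n ^ 2) ^ 2) := hn2o.pow
    exact (Int.not_even_iff_odd.2 h3) h2
  obtain ⟨U1, hU1⟩ : ∃ U1, u + n ^ 2 = 2 * U1 := (hUodd.add_odd hn2o).two_dvd
  obtain ⟨U2, hU2⟩ : ∃ U2, u - n ^ 2 = 2 * U2 := (hUodd.sub_odd hn2o).two_dvd
  have hn' : n ^ 2 = U1 - U2 := by linarith
  have hU' : u = U1 + U2 := by linarith
  have hprod : U1 * U2 = a * W ^ 2 := by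
    have : 4 * (U1 * U2) = 4 * (a * W ^ 2) := by
      have h1 : 4 * (U1 * U2) = (u + n ^ 2) * (u - n ^ 2) := by rw [hU1, hU2]; ring
      rw [h1]
      rw [hW] at h
      linear_combination h
    linarith
  have hcop : IsCoprime U1 U2 := by
    obtain ⟨s, t, hst⟩ := (hun.pow_right : IsCoprime u (n ^ 2))
    rw [hn', hU'] at hst
    exact ⟨s + t, s - t, by linear_combination hst⟩
  have hW0 : W ≠ 0 := by
    intro hW0
    rw [hW0] at hprod
    have h0 : U1 * U2 = 0 := by rw [hprod]; ring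
    have hnsq : n ^ 2 = 1 ∨ n ^ 2 = -1 := by
      rcases mul_eq_zero.1 h0 with h1 | h1
      · rw [h1] at hcop
        have h2 := isCoprime_zero_left.1 hcop
        rw [hn', h1]
        rcases Int.isUnit_iff.1 h2 with h3 | h3 <;> rw [h3] <;> norm_num
      · rw [h1] at hcop
        have h2 := isCoprime_zero_right.1 hcop
        rw [hn', h1]
        rcases Int.isUnit_iff.1 h2 with h3 | h3 <;> rw [h3] <;> norm_num
    rcases hnsq with h1 | h1
    · rcases (mul_self_eq_one_iff.1 ((sq n).symm.trans h1)) with h2 | h2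
      · exact hn1 h2
      · exact hn2 h2
    · have := sq_nonneg n
      omega
  obtain ⟨r, r', hrr, hrU⟩ : ∃ r r' : ℕ, a = r * r' ∧ (r : ℤ) ∣ U1 ∧ IsCoprime U1 (r' : ℤ) := by
    refine ⟨Nat.gcd a U1.natAbs, a / Nat.gcd a U1.natAbs, (Nat.mul_div_cancel' (Nat.gcd_dvd_left _ _)).symm,
      ?_, ?_⟩
    · exact Int.natCast_dvd.2 (Nat.gcd_dvd_right _ _)
    · rw [Int.isCoprime_iff_gcd_eq_one, Int.gcd_eq_natAbs, Int.natAbs_natCast]
      by_contra hne
      obtain ⟨p, hp, hpd⟩ := Nat.exists_prime_and_dvd hne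
      have h1 : p ∣ U1.natAbs := hpd.trans (Nat.gcd_dvd_left _ _)
      have h2 : p ∣ a / Nat.gcd a U1.natAbs := hpd.trans (Nat.gcd_dvd_right _ _)
      have h3 : p ∣ a := h2.trans (Nat.div_dvd_of_dvd (Nat.gcd_dvd_left _ _))
      have h4 : p ∣ Nat.gcd a U1.natAbs := Nat.dvd_gcd h3 h1
      have h5 : p * p ∣ a := by
        have := mul_dvd_mul h4 h2
        rwa [Nat.mul_div_cancel' (Nat.gcd_dvd_left _ _)] at this
      exact hp.one_lt.ne' (Nat.isUnit_iff.1 (hsf p h5))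
  obtain ⟨hrU, hr'U⟩ := hrU
  obtain ⟨u1, hu1⟩ := hrU
  have hr0 : (r : ℤ) ≠ 0 := by
    intro h0
    have : r = 0 := by exact_mod_cast h0
    rw [this] at hrr; simp at hrr; exact ha0 hrr
  have hr'0 : (r' : ℤ) ≠ 0 := by
    intro h0
    have : r' = 0 := by exact_mod_cast h0
    rw [this] at hrr; simp at hrr; exact ha0 hrr
  have h1 : u1 * U2 = r' * W ^ 2 := by
    apply mul_left_cancel₀ hr0
    rw [← mul_assoc, ← hu1, hprod, hrr]
    push_cast
    ring
  have h2 : (r' : ℤ) ∣ U2 := by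
    have h3 : (r' : ℤ) ∣ U1 * U2 := by
      rw [hprod, hrr]; push_cast
      exact ⟨r * W ^ 2, by ring⟩
    exact hr'U.symm.dvd_of_dvd_mul_left h3
  obtain ⟨u2, hu2⟩ := h2
  have h3 : u1 * u2 = W ^ 2 := by
    apply mul_left_cancel₀ hr'0
    rw [← h1, hu2]; ring
  have hcu : IsCoprime u1 u2 := by
    have hcop' := hcop
    rw [hu1, hu2] at hcop'
    exact (hcop'.of_mul_left_right).of_mul_right_right
  obtain ⟨t, f, g, ht, hf, hg⟩ : ∃ t f g : ℤ, (t = 1 ∨ t = -1) ∧ u1 = t * f ^ 2 ∧ u2 = t * g ^ 2 := by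
    obtain ⟨f, hf⟩ := Int.sq_of_isCoprime hcu h3
    obtain ⟨g, hg⟩ := Int.sq_of_isCoprime hcu.symm (by rw [mul_comm]; exact h3)
    have hW2 : 0 < W ^ 2 := by positivity
    rcases hf with hf | hf <;> rcases hg with hg | hg
    · exact ⟨1, f, g, Or.inl rfl, by linarith, by linarith⟩
    · exfalso
      rw [hf, hg] at h3
      have : 0 ≤ (f * g) ^ 2 := sq_nonneg _
      nlinarith
    · exfalso
      rw [hf, hg] at h3
      have : 0 ≤ (f * g) ^ 2 := sq_nonneg _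
      nlinarith
    · exact ⟨-1, f, g, Or.inr rfl, by linarith, by linarith⟩
  have hU1' : U1 = t * r * f ^ 2 := by rw [hu1, hf]; ring
  have hU2' : U2 = t * r' * g ^ 2 := by rw [hu2, hg]; ring
  refine ⟨r, r', hrr.symm, f, g, ?_, ?_⟩
  · have hA : (r : ℤ) * f ∣ U1 := ⟨t * f, by rw [hU1']; ring⟩
    have hB : (r' : ℤ) * g ∣ U2 := ⟨t * g, by rw [hU2']; ring⟩
    exact (hcop.of_isCoprime_of_dvd_left hA).of_isCoprime_of_dvd_right hB
  · rcases ht with rfl | rfl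
    · left
      rw [hn', hU1', hU2']; ring
    · right
      rw [hn', hU1', hU2']; ring

end Pool.Agent.Work.MP_8efaaa_nt.Rg
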