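import Mathlib
import Pool.Agent.Work.MP_8efaaa_nt.Rf.FRi

/-!
# Module FSg: a unit of norm `-1`

`neg_pell`: `u` an integer of `F` of norm `-1`: `f_cube` for `u` gives integers `U, V` with
`U ^ 2 - a V ^ 2 = (-1) ^ 3 = -1`.
`primes_one`: `U ^ 2 - a V ^ 2 = -1`, `q` a prime divisor of `a`, `a` odd: `-1` is a square modulo the odd prime
`q`, so `q % 4 = 1` (`ZMod.exists_sq_eq_neg_one_iff` or `Nat.Prime.mod_four_ne_three_of_...`).
-/

set_option autoImplicit false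

namespace Pool.Agent.Work.MP_8efaaa_nt.Rg

open NumberField Pool.Agent.Work.MP_8efaaa_nt.Rf

theorem neg_pell {F : Type*} [Field F] [NumberField F] {a : ℕ} {f : F}
    (hF : Module.finrank ℚ F = 2) (hf : f ^ 2 = (a : F)) (hsf : Squarefree a)
    (ha : a % 8 = 5) {u : 𝓞 F} (hu : Algebra.norm ℤ u = -1) :
    ∃ U V : ℤ, U ^ 2 - a * V ^ 2 = -1 := by
  obtain ⟨U, V, -, h⟩ := f_cube hF hf hsf ha u
  refine ⟨U, V, ?_⟩
  rw [← h, hu]
  norm_num

theorem primes_one {a : ℕ} (ha : a % 8 = 5) {U V : ℤ} (h : U ^ 2 - a * V ^ 2 = -1) :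
    ∀ q : ℕ, q.Prime → q ∣ a → q % 4 = 1 := by
  intro q hq hqa
  haveI : Fact q.Prime := ⟨hq⟩
  have h1 : ((U : ZMod q)) ^ 2 = -1 := by
    have h2 : ((U ^ 2 - a * V ^ 2 : ℤ) : ZMod q) = ((-1 : ℤ) : ZMod q) := by rw [h]
    have h3 : ((a : ℕ) : ZMod q) = 0 := (ZMod.natCast_eq_zero_iff a q).2 hqa
    push_cast at h2
    rw [h3] at h2
    simpa using h2
  have h4 : q % 4 ≠ 3 := ZMod.mod_four_ne_three_of_sq_eq_neg_one h1
  have h5 : q ≠ 2 := by
    rintro rfl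
    omega
  have h6 := hq.eq_two_or_odd
  omega

end Pool.Agent.Work.MP_8efaaa_nt.Rg
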