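import Mathlib

/-!
# Module FSy: a symbol (pure number theory)

`e` a prime, `5` modulo `8`; `d = 1` modulo `8`, `d e` squarefree; `d x ^ 2 + e y ^ 2 = w ^ 4`, `x, y` coprime, `x` odd;
`e g ^ 2 - d f ^ 2 = n ^ 2`, `n = p ^ k`, `p` an odd prime, not dividing `d e`, `k ≥ 1`, `p` does not divide both
`g` and `f`. Claim: `(n / e) = 1`.
(1) Modulo `e`: `e ∤ x` (otherwise `e ∣ w`, `e ^ 2 ∣ e y ^ 2`, `e ∣ y`), `e ∤ w`. `(x / e) = (e / |x|)` (`e = 1`
modulo `4`, so `(-1 / e) = 1`, reciprocity). Modulo `|x|`: `e y ^ 2 = (w ^ 2) ^ 2`; `y` is prime to `x`, and `w` too (a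
prime dividing `x` and `w` divides `e y ^ 2`, so it is `e`, but `e ∤ x`). So `(e / |x|) = 1`, `(x / e) = 1`.
(2) We may assume that `g, f` are coprime: let `c = gcd (g, f)`; `c ^ 2 ∣ n ^ 2`, so `c ∣ n = p ^ k`, and `p ∤ c`, so
`c = 1`. Modulo `8` (`n` odd): `5 g ^ 2 - f ^ 2 = 1`: `g` odd and `f = 2` modulo `4` (`g` even: `- f ^ 2 = 1` or
`4 - f ^ 2 = 1` are impossible modulo `8`... `g` odd: `f ^ 2 = 4` modulo `8`). `f = 2 f1`, `f1` odd.
`(f / e) = (2 / e) (f1 / e) = - (e / |f1|)`; modulo `|f1|`: `e g ^ 2 = n ^ 2`, `f1` is prime to `g` and so to `n`: `(e / |f1|)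
= 1`. So `(f / e) = -1` (also `e ∤ f`: otherwise `e ∣ n`).
(3) Modulo `e`: `- d f ^ 2 = n ^ 2` and `d x ^ 2 = w ^ 4`. So `(n x) ^ 2 = - d f ^ 2 x ^ 2 = - (f w ^ 2) ^ 2`. Let `i` be
the quotient `n x / (f w ^ 2)` in `ZMod e`: `i ^ 2 = -1`, and `(i / e) = i ^ ((e - 1) / 2) = (-1) ^ ((e - 1) / 4) = -1`
since `e = 5` modulo `8` (Euler's criterion, or: `i` is not a square because otherwise there is an element of order
`8`, `8 ∤ e - 1`). So `(n x / e) = - (f w ^ 2 / e) = - (f / e) = 1` and `(n / e) = (x / e) = 1`.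
-/

set_option autoImplicit false

namespace Pool.Agent.Work.MP_8efaaa_nt.Rg

private theorem sy_neg {e : ℕ} (he4 : e % 4 = 1) (t : ℤ) :
    jacobiSym t e = jacobiSym (t.natAbs : ℤ) e := by
  have ho : Odd e := by
    rw [Nat.odd_iff]
    omega
  rcases Int.natAbs_eq t with h1 | h1
  · exact congrArg (fun z => jacobiSym z e) h1
  · have h2 := jacobiSym.neg (t.natAbs : ℤ) ho
    rw [ZMod.χ₄_nat_one_mod_four he4, one_mul] at h2
    rw [← h2]
    exact congrArg (fun z => jacobiSym z e) h1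

private theorem sy_L {e : ℕ} (he4 : e % 4 = 1) {t u v : ℤ} (ht : Odd t)
    (hu : IsCoprime u t) (hv : IsCoprime v t) (h : t ∣ e * u ^ 2 - v ^ 2) :
    jacobiSym t e = 1 := by
  have hto : Odd t.natAbs := Int.natAbs_odd.2 ht
  rw [sy_neg he4 t, ← jacobiSym.quadratic_reciprocity_one_mod_four he4 hto]
  have hg : ∀ s : ℤ, IsCoprime s t → s.gcd (t.natAbs : ℤ) = 1 := by
    intro s hs
    have h1 := Int.isCoprime_iff_gcd_eq_one.1 hs
    show s.natAbs.gcd ((t.natAbs : ℤ).natAbs) = 1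
    rw [Int.natAbs_natCast]
    exact h1
  have h1 : jacobiSym ((e : ℤ) * u ^ 2) t.natAbs = jacobiSym (v ^ 2) t.natAbs := by
    apply jacobiSym.mod_left'
    apply Int.emod_eq_emod_iff_emod_sub_eq_zero.2
    exact Int.emod_eq_zero_of_dvd (Int.natAbs_dvd.2 h)
  rw [jacobiSym.mul_left, jacobiSym.sq_one' (hg u hu), jacobiSym.sq_one' (hg v hv), mul_one] at h1
  exact h1

private theorem sy_mod (G F : ZMod 8) (h : 5 * G ^ 2 - F ^ 2 = 1) : F = 2 ∨ F = 6 := by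
  revert G F
  decide

private theorem sy_odd (A : ZMod 8) : (2 * A + 1) ^ 2 = 1 := by
  revert A
  decide

theorem sym_one {d e : ℕ} (hsf : Squarefree (d * e)) (hd : d % 8 = 1) (he : e % 8 = 5)
    (hep : e.Prime) {x y w : ℤ} (hc : d * x ^ 2 + e * y ^ 2 = w ^ 4) (hxy : IsCoprime x y)
    (hx : Odd x) {p k : ℕ} (hp : p.Prime) (hp2 : p ≠ 2) (hpa : ¬ p ∣ d * e)
    {f g : ℤ} (hgf : ¬ ((p : ℤ) ∣ g ∧ (p : ℤ) ∣ f))
    (h : e * g ^ 2 - d * f ^ 2 = ((p : ℤ) ^ k) ^ 2) : jacobiSym ((p : ℤ) ^ k) e = 1 := by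
  haveI : Fact e.Prime := ⟨hep⟩
  have he4 : e % 4 = 1 := by omega
  have heo : Odd e := by
    rw [Nat.odd_iff]
    omega
  have heZ : Prime (e : ℤ) := Nat.prime_iff_prime_int.1 hep
  have hpZ : Prime (p : ℤ) := Nat.prime_iff_prime_int.1 hp
  have hpe : ¬ (p : ℤ) ∣ e := fun h1 => hpa (Dvd.dvd.mul_left (Int.natCast_dvd_natCast.1 h1) d)
  have hed : ¬ (e : ℤ) ∣ d := by
    intro h1
    have h2 : e ∣ d := Int.natCast_dvd_natCast.1 h1
    have h3 := hsf e (mul_dvd_mul_right h2 e)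
    exact hep.one_lt.ne' (Nat.isUnit_iff.1 h3)
  -- `e` does not divide `x`
  have hex : ¬ (e : ℤ) ∣ x := by
    intro h1
    have h2 : (e : ℤ) ∣ w := by
      have h3 : (e : ℤ) ∣ w ^ 4 := by
        rw [← hc]
        exact dvd_add (Dvd.dvd.mul_left (Dvd.dvd.pow h1 two_ne_zero) _) (Dvd.intro _ rfl)
      exact heZ.dvd_of_dvd_pow h3
    obtain ⟨x', hx'⟩ := h1
    obtain ⟨w', hw'⟩ := h2
    have h4 : (e : ℤ) ∣ y := by
      have h5 : (e : ℤ) * y ^ 2 = e * (e * (e ^ 2 * w' ^ 4 - d * x' ^ 2)) := by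
        rw [hx', hw'] at hc
        linarith [hc]
      have h6 := mul_left_cancel₀ heZ.ne_zero h5
      exact heZ.dvd_of_dvd_pow (Dvd.intro _ h6.symm)
    exact heZ.not_unit (hxy.isUnit_of_dvd' ⟨x', hx'⟩ h4)
  have hew : ¬ (e : ℤ) ∣ w := by
    intro h1
    have h2 : (e : ℤ) ∣ d * x ^ 2 := by
      have h3 : (d : ℤ) * x ^ 2 = w ^ 4 - e * y ^ 2 := by linarith
      rw [h3]
      exact dvd_sub (Dvd.dvd.pow h1 (by norm_num)) (Dvd.intro _ rfl)
    rcases heZ.dvd_or_dvd h2 with h3 | h3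
    · exact hed h3
    · exact hex (heZ.dvd_of_dvd_pow h3)
  have hx0 : x ≠ 0 := by
    rintro rfl
    exact absurd hx (by decide)
  have hwx : IsCoprime w x := by
    refine isCoprime_of_prime_dvd (fun h1 => hx0 h1.2) fun q hq hqw hqx => ?_
    have h2 : q ∣ (e : ℤ) * y ^ 2 := by
      have h3 : (e : ℤ) * y ^ 2 = w ^ 4 - d * x ^ 2 := by linarith
      rw [h3]
      exact dvd_sub (Dvd.dvd.pow hqw (by norm_num))
        (Dvd.dvd.mul_left (Dvd.dvd.pow hqx two_ne_zero) _)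
    rcases hq.dvd_or_dvd h2 with h3 | h3
    · exact hex ((hq.associated_of_dvd heZ h3).dvd_iff_dvd_left.1 hqx)
    · exact hq.not_unit (hxy.isUnit_of_dvd' hqx (hq.dvd_of_dvd_pow h3))
  -- the symbol of `x`
  have hJx : jacobiSym x e = 1 := by
    refine sy_L he4 hx hxy.symm (hwx.pow_left (m := 2)) ⟨-(d * x), ?_⟩
    have : (e : ℤ) * y ^ 2 - (w ^ 2) ^ 2 = -(d * x ^ 2) := by linarith [hc]
    rw [this]
    ring
  -- the number `n`
  set n : ℤ := (p : ℤ) ^ k with hn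
  have hpn : ∀ q : ℤ, Prime q → q ∣ n → (p : ℤ) ∣ q := by
    intro q hq hqn
    exact (hq.associated_of_dvd hpZ (hq.dvd_of_dvd_pow hqn)).symm.dvd
  have hcop : ∀ q : ℤ, Prime q → q ∣ g → ¬ q ∣ f := by
    intro q hq h1 h2
    have h3 : q ∣ n := by
      have h4 : q ∣ n ^ 2 := by
        rw [← h]
        exact dvd_sub (Dvd.dvd.mul_left (Dvd.dvd.pow h1 two_ne_zero) _)
          (Dvd.dvd.mul_left (Dvd.dvd.pow h2 two_ne_zero) _)
      exact hq.dvd_of_dvd_pow h4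
    have h5 := hpn q hq h3
    exact hgf ⟨h5.trans h1, h5.trans h2⟩
  have hno : Odd n := by
    have h1 : Odd (p : ℤ) := by
      have h2 := hp.odd_of_ne_two hp2
      exact_mod_cast h2
    exact h1.pow
  have hf4 : f % 4 = 2 := by
    obtain ⟨b, hb⟩ := hno
    have h1 : ((e * g ^ 2 - d * f ^ 2 : ℤ) : ZMod 8) = ((n ^ 2 : ℤ) : ZMod 8) := by rw [h]
    have h2 : ((e : ℤ) : ZMod 8) = 5 := by
      have h3 : ((e : ℤ) : ZMod 8) = ((5 : ℤ) : ZMod 8) :=
        (ZMod.intCast_eq_intCast_iff _ _ 8).2 (by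
          show (e : ℤ) % 8 = 5 % 8
          omega)
      rw [h3]
      rfl
    have h4 : ((d : ℤ) : ZMod 8) = 1 := by
      have h3 : ((d : ℤ) : ZMod 8) = ((1 : ℤ) : ZMod 8) :=
        (ZMod.intCast_eq_intCast_iff _ _ 8).2 (by
          show (d : ℤ) % 8 = 1 % 8
          omega)
      rw [h3]
      rfl
    rw [Int.cast_sub, Int.cast_mul, Int.cast_mul, Int.cast_pow, Int.cast_pow, Int.cast_pow, h2,
      h4, one_mul, hb, Int.cast_add, Int.cast_mul, Int.cast_one, Int.cast_ofNat, sy_odd] at h1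
    rcases sy_mod _ _ h1 with h5 | h5
    · have h6 : ((f : ℤ) : ZMod 8) = ((2 : ℤ) : ZMod 8) := by
        rw [h5]
        rfl
      have h7 : f % 8 = 2 % 8 := (ZMod.intCast_eq_intCast_iff _ _ 8).1 h6
      omega
    · have h6 : ((f : ℤ) : ZMod 8) = ((6 : ℤ) : ZMod 8) := by
        rw [h5]
        rfl
      have h7 : f % 8 = 6 % 8 := (ZMod.intCast_eq_intCast_iff _ _ 8).1 h6
      omega
  obtain ⟨f1, hf1, hf1o⟩ : ∃ f1 : ℤ, f = 2 * f1 ∧ Odd f1 :=
    ⟨f / 2, by omega, by rw [Int.odd_iff]; omega⟩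
  have hf10 : f1 ≠ 0 := by
    rintro rfl
    exact absurd hf1o (by decide)
  have hJf1 : jacobiSym f1 e = 1 := by
    refine sy_L he4 hf1o (u := g) (v := n) ?_ ?_ ⟨4 * d * f1, ?_⟩
    · refine isCoprime_of_prime_dvd (fun h1 => hf10 h1.2) fun q hq h1 h2 => ?_
      exact hcop q hq h1 (by rw [hf1]; exact Dvd.dvd.mul_left h2 2)
    · refine isCoprime_of_prime_dvd (fun h1 => hf10 h1.2) fun q hq h1 h2 => ?_
      have h3 := hpn q hq h1
      have h4 : (p : ℤ) ∣ f := by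
        rw [hf1]
        exact Dvd.dvd.mul_left (h3.trans h2) 2
      have h5 : (p : ℤ) ∣ n := h3.trans h1
      have h6 : (p : ℤ) ∣ e * g ^ 2 := by
        have h7 : (e : ℤ) * g ^ 2 = n ^ 2 + d * f ^ 2 := by linarith
        rw [h7]
        exact dvd_add (Dvd.dvd.pow h5 two_ne_zero)
          (Dvd.dvd.mul_left (Dvd.dvd.pow h4 two_ne_zero) _)
      rcases hpZ.dvd_or_dvd h6 with h8 | h8
      · exact hpe h8
      · exact hgf ⟨hpZ.dvd_of_dvd_pow h8, h4⟩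
    · have h1 : (e : ℤ) * g ^ 2 - n ^ 2 = d * f ^ 2 := by linarith
      rw [h1, hf1]
      ring
  have hJf : jacobiSym f e = -1 := by
    rw [hf1, jacobiSym.mul_left, hJf1, mul_one, jacobiSym.at_two heo, ZMod.χ₈_nat_mod_eight, he]
    rfl
  -- the last step
  have hJw : jacobiSym (w ^ 2) e = 1 := by
    apply jacobiSym.sq_one'
    have h1 : IsCoprime w (e : ℤ) := ((heZ.coprime_iff_not_dvd).2 hew).symm
    exact Int.isCoprime_iff_gcd_eq_one.1 h1
  have hJB : jacobiSym (f * w ^ 2) e = -1 := by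
    rw [jacobiSym.mul_left, hJf, hJw]
    norm_num
  have hAB : (((n * x : ℤ) : ZMod e)) ^ 2 = -(((f * w ^ 2 : ℤ) : ZMod e)) ^ 2 := by
    have h1 : (e : ℤ) ∣ (n * x) ^ 2 + (f * w ^ 2) ^ 2 := by
      refine ⟨g ^ 2 * x ^ 2 + f ^ 2 * y ^ 2, ?_⟩
      have h2 : (n * x) ^ 2 + (f * w ^ 2) ^ 2 = n ^ 2 * x ^ 2 + f ^ 2 * w ^ 4 := by ring
      rw [h2, ← h, ← hc]
      ring
    have h3 := (ZMod.intCast_zmod_eq_zero_iff_dvd _ e).2 h1
    push_cast at h3 ⊢
    linear_combination h3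
  obtain ⟨j, hj⟩ : ∃ j, e / 2 = 2 * (2 * j + 1) := ⟨e / 8, by omega⟩
  have hpow : ((jacobiSym (n * x) e : ℤ) : ZMod e) = -((jacobiSym (f * w ^ 2) e : ℤ) : ZMod e) := by
    rw [← jacobiSym.legendreSym.to_jacobiSym, ← jacobiSym.legendreSym.to_jacobiSym,
      legendreSym.eq_pow, legendreSym.eq_pow, hj, pow_mul, pow_mul, hAB,
      Odd.neg_pow ⟨j, rfl⟩]
  rw [hJB, jacobiSym.mul_left, hJx, mul_one] at hpow
  have h1 : ((jacobiSym n e : ℤ) : ZMod e) = 1 := by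
    rw [hpow]
    push_cast
    ring
  rcases jacobiSym.trichotomy n e with h2 | h2 | h2
  · rw [h2, Int.cast_zero] at h1
    exact absurd h1 zero_ne_one
  · exact h2
  · exfalso
    rw [h2] at h1
    have h3 : ((2 : ℤ) : ZMod e) = 0 := by
      push_cast at h1 ⊢
      linear_combination -h1
    have h4 := (ZMod.intCast_zmod_eq_zero_iff_dvd _ e).1 h3
    have h5 : e ∣ 2 := by exact_mod_cast h4
    have h6 := Nat.le_of_dvd (by norm_num) h5
    omega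

end Pool.Agent.Work.MP_8efaaa_nt.Rg
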