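import Mathlib
import Pool.Agent.Work.MP_8efaaa_nt.Rf.FPl

/-!
# Module FUn: multiplication with a unit of norm `-1`

`U ^ 2 - a V ^ 2 = -1`, `p` a prime.
`twist`: `u ^ 2 - a v ^ 2 = - m`, `p` does not divide both `u` and `v`: `u' = u U + a v V`, `v' = u V + v U`:
`u' ^ 2 - a v' ^ 2 = m`, and `u = - (u' U - a v' V)`, `v = - (v' U - u' V)`, so `p` does not divide both `u'` and `v'`.
`twist_de`: `e g ^ 2 - d f ^ 2 = - m`, `a = d e`: `g' = U g + d V f`, `f' = U f + e V g`: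
`e g' ^ 2 - d f' ^ 2 = m` (check: `(g √e + f √d) (U + V √(d e)) = (U g + d V f) √e + (U f + e V g) √d`); again
`g, f` are combinations of `g', f'`, so: if the prime `p` does not divide both `g` and `f` then it does not divide
both `g'` and `f'`. (The coprimality `IsCoprime (e g) (d f)` is not needed for the new ones.)
`plus_one`: `n = p ^ k`, `k ≥ 1`, `p` odd, `p ∤ a`, `f ^ 2 - a g ^ 2 = n ^ 2` or `- n ^ 2`, `p ∤ f`, the conic
`d x ^ 2 + e y ^ 2 = z ^ 2`, `x, y` coprime, `a = d e`, `d = 1`, `e = 5` modulo `8`. Then `(n / d) = 1`. For the sign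
`+` this is `plus_case`. For `-` take `twist`: `f' ^ 2 - a g' ^ 2 = n ^ 2`; if `p ∣ f'` then `p ∣ a g' ^ 2`, `p ∣ g'`,
contradiction; so `f'` is prime to `n`, `plus_case`.
-/

set_option autoImplicit false

namespace Pool.Agent.Work.MP_8efaaa_nt.Rg

open Pool.Agent.Work.MP_8efaaa_nt.Rf

theorem twist {a : ℕ} {U V : ℤ} (hU : U ^ 2 - a * V ^ 2 = -1) {p : ℤ} {u v m : ℤ}
    (h : u ^ 2 - a * v ^ 2 = -m) (hp : ¬ (p ∣ u ∧ p ∣ v)) :
    ∃ u' v' : ℤ, u' ^ 2 - a * v' ^ 2 = m ∧ ¬ (p ∣ u' ∧ p ∣ v') := by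
  refine ⟨u * U + a * v * V, u * V + v * U, ?_, ?_⟩
  · linear_combination (-1 : ℤ) * h + (u ^ 2 - a * v ^ 2) * hU
  · rintro ⟨h1, h2⟩
    apply hp
    constructor
    · have h3 : u = -((u * U + a * v * V) * U - a * (u * V + v * U) * V) := by
        linear_combination u * hU
      rw [h3]
      exact (dvd_sub (h1.mul_right _) ((h2.mul_left _).mul_right _)).neg_right
    · have h3 : v = -((u * V + v * U) * U - (u * U + a * v * V) * V) := by
        linear_combination v * hU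
      rw [h3]
      exact (dvd_sub (h2.mul_right _) (h1.mul_right _)).neg_right

theorem twist_de {d e : ℕ} {U V : ℤ} (hU : U ^ 2 - (d * e : ℕ) * V ^ 2 = -1) {p : ℤ} {f g m : ℤ}
    (h : e * g ^ 2 - d * f ^ 2 = -m) (hp : ¬ (p ∣ g ∧ p ∣ f)) :
    ∃ f' g' : ℤ, e * g' ^ 2 - d * f' ^ 2 = m ∧ ¬ (p ∣ g' ∧ p ∣ f') := by
  push_cast at hU
  refine ⟨U * f + e * V * g, U * g + d * V * f, ?_, ?_⟩
  · linear_combination (-1 : ℤ) * h + (e * g ^ 2 - d * f ^ 2) * hU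
  · rintro ⟨h1, h2⟩
    apply hp
    constructor
    · have h3 : g = -((U * g + d * V * f) * U - (U * f + e * V * g) * (d * V)) := by
        linear_combination g * hU
      rw [h3]
      exact (dvd_sub (h1.mul_right _) (h2.mul_right _)).neg_right
    · have h3 : f = -((U * f + e * V * g) * U - (U * g + d * V * f) * (e * V)) := by
        linear_combination f * hU
      rw [h3]
      exact (dvd_sub (h2.mul_right _) (h1.mul_right _)).neg_right

private theorem cop_of {a p k : ℕ} (hp : p.Prime) (hpa : ¬ p ∣ a) (hk : k ≠ 0) {f g : ℤ}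
    (hf : ¬ ((p : ℤ) ∣ f ∧ (p : ℤ) ∣ g)) (h : f ^ 2 - (a : ℕ) * g ^ 2 = ((p : ℤ) ^ k) ^ 2) :
    IsCoprime f ((p : ℤ) ^ k) := by
  have hpp : Prime (p : ℤ) := Nat.prime_iff_prime_int.mp hp
  apply IsCoprime.pow_right
  refine IsCoprime.symm ((Prime.coprime_iff_not_dvd hpp).mpr ?_)
  intro hpf
  apply hf
  refine ⟨hpf, ?_⟩
  have h1 : (p : ℤ) ∣ (a : ℤ) * g ^ 2 := by
    have h2 : (a : ℤ) * g ^ 2 = f ^ 2 - ((p : ℤ) ^ k) ^ 2 := by linarith
    rw [h2]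
    exact dvd_sub (dvd_pow hpf two_ne_zero) (dvd_pow (dvd_pow_self _ hk) two_ne_zero)
  rcases hpp.dvd_or_dvd h1 with h2 | h2
  · exact absurd (by exact_mod_cast h2) hpa
  · exact hpp.dvd_of_dvd_pow h2

theorem plus_one {d e : ℕ} (hsf : Squarefree (d * e)) (hd : d % 8 = 1) (he : e % 8 = 5)
    {x y z : ℤ} (hc : d * x ^ 2 + e * y ^ 2 = z ^ 2) (hxy : IsCoprime x y)
    {U V : ℤ} (hU : U ^ 2 - (d * e : ℕ) * V ^ 2 = -1)
    {p k : ℕ} (hp : p.Prime) (hp2 : p ≠ 2) (hpa : ¬ p ∣ d * e) (hk : k ≠ 0)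
    {f g : ℤ} (hf : ¬ ((p : ℤ) ∣ f ∧ (p : ℤ) ∣ g))
    (h : f ^ 2 - (d * e : ℕ) * g ^ 2 = ((p : ℤ) ^ k) ^ 2 ∨
      f ^ 2 - (d * e : ℕ) * g ^ 2 = -((p : ℤ) ^ k) ^ 2) :
    jacobiSym ((p : ℤ) ^ k) d = 1 := by
  have hodd : Odd ((p : ℤ) ^ k) := by
    apply Odd.pow
    have h1 : Odd p := hp.odd_of_ne_two hp2
    exact_mod_cast h1
  rcases h with h | h
  · exact plus_case hsf hd he hc hxy hodd (cop_of hp hpa hk hf h) h
  · obtain ⟨f', g', h1, h2⟩ := twist hU h hf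
    exact plus_case hsf hd he hc hxy hodd (cop_of hp hpa hk h2 h1) h1

end Pool.Agent.Work.MP_8efaaa_nt.Rg
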