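import Mathlib
import Pool.Agent.Work.MP_8efaaa_nt.Rg.Defs
import Pool.Agent.Work.MP_8efaaa_nt.Rg.FSg
import Pool.Agent.Work.MP_8efaaa_nt.Rg.FUn
import Pool.Agent.Work.MP_8efaaa_nt.Rg.FRd
import Pool.Agent.Work.MP_8efaaa_nt.Rg.FFac
import Pool.Agent.Work.MP_8efaaa_nt.Rg.FSy
import Pool.Agent.Work.MP_8efaaa_nt.Rf.FDi

/-!
# Module FKb: two prime factors

`dv a` has at most two elements, `d ∈ dv a`, `d > 1`, `a = d e`, so `dv a = {1, d}`, `e = 5` modulo `8`. All prime
factors of `a` are `1` modulo `4` (`primes_one`), so every divisor of `a` is `1` or `5` modulo `8`.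
(0) `e` is prime: `e ≠ 1`; let `q` be a prime factor, `e = q e'`. If `e' ≠ 1`, one of `q, e'` is `1` modulo `8` (both
are `1` or `5`, the product is `5`), it is in `dv a`, not `1`, so equal to `d`, but it is prime to `d` (squarefree)
and `d > 1`: contradiction.
(1) `exists_prime_nn` (`Rf/FDi.lean`): a prime `p > 2 + a` with `(p / d) = (p / e) = -1`, so `(p / a) = 1`
(`jacobiSym.mul_right`). Suppose `8 ∤ h`: `f_rep4`: `k` odd, `u, v`, `u` prime to `p`, `u ^ 2 - a v ^ 2 = ± (p ^ k) ^ 4`.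
If the sign is `-` use `twist` (`m = (p ^ k) ^ 4`): `p` divides not both `u', v'`; so `p ∤ u'` (`p ∣ u'` gives
`p ∣ a v' ^ 2`, `p ∣ v'`). So we have `u ^ 2 - a v ^ 2 = n ^ 4`, `n = p ^ k`, `u` prime to `n`.
(2) `fac4`: `r r' = a`, `r f ^ 2 - r' g ^ 2 = ± n ^ 2`, `r f`, `r' g` coprime. One of `r, r'` is `1` modulo `8`, so
it is `1` or `d`. `p` does not divide both `f` and `g` (coprime).
* `r = 1`, `r' = a`: `f ^ 2 - a g ^ 2 = ± n ^ 2`: `plus_one` (with the conic `z = w ^ 2`): `(n / d) = 1`. But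
`(n / d) = (p / d) ^ k = -1`.
* `r = a`, `r' = 1`: `a f ^ 2 - g ^ 2 = ± n ^ 2`, i.e. `g ^ 2 - a f ^ 2 = ∓ n ^ 2`: the same.
* `r = d`, `r' = e`: `e g ^ 2 - d f ^ 2 = ∓ n ^ 2`; if the sign is `-` use `twist_de`. `sym_one`: `(n / e) = 1`, but
`(n / e) = (p / e) ^ k = -1`.
* `r = e`, `r' = d`: `e f ^ 2 - d g ^ 2 = ± n ^ 2`: the same with `f, g` exchanged.
-/

set_option autoImplicit false

namespace Pool.Agent.Work.MP_8efaaa_nt.Rg

open NumberField Pool.Agent.Work.MP_8efaaa_nt.Rf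

variable {F : Type*} [Field F] [NumberField F] {a : ℕ} {f : F}

private theorem fkb_mod {a : ℕ} (hpr : ∀ q : ℕ, q.Prime → q ∣ a → q % 4 = 1) (ha0 : a ≠ 0)
    (m : ℕ) : m ∣ a → m % 4 = 1 := by
  induction m using Nat.strong_induction_on with
  | _ m ih =>
    intro hm
    have hm0 : m ≠ 0 := by
      rintro rfl
      exact ha0 (Nat.eq_zero_of_zero_dvd hm)
    by_cases h1 : m = 1
    · rw [h1]
    · have hq := Nat.minFac_prime h1
      obtain ⟨m', hm'⟩ := Nat.minFac_dvd m
      have hq1 := hpr _ hq ((Nat.minFac_dvd m).trans hm)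
      have hm'0 : 0 < m' := by
        rcases Nat.eq_zero_or_pos m' with h | h
        · rw [h, mul_zero] at hm'
          exact absurd hm' hm0
        · exact h
      have h2 : m' < m := by
        have h3 : 2 * m' ≤ m.minFac * m' := Nat.mul_le_mul_right _ hq.two_le
        omega
      have h3 := ih m' h2 ((Dvd.intro_left _ hm'.symm).trans hm)
      rw [hm', Nat.mul_mod, hq1, h3]

private theorem fkb_jac {p k d : ℕ} (h : jacobiSym p d = -1) (hk : Odd k)
    (h1 : jacobiSym ((p : ℤ) ^ k) d = 1) : False := by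
  rw [jacobiSym.pow_left, h, hk.neg_one_pow] at h1
  norm_num at h1

private theorem fkb_cop {p : ℕ} (hp : p.Prime) {r r' f g : ℤ} (h : IsCoprime (r * f) (r' * g)) :
    ¬ ((p : ℤ) ∣ f ∧ (p : ℤ) ∣ g) := by
  rintro ⟨h1, h2⟩
  have h3 : IsUnit (p : ℤ) := h.isUnit_of_dvd' (h1.mul_left r) (h2.mul_left r')
  exact (Nat.prime_iff_prime_int.mp hp).not_unit h3

theorem k_two (hF : Module.finrank ℚ F = 2) (hf : f ^ 2 = (a : F)) (hsf : Squarefree a)
    (ha : a % 8 = 5) {U V : ℤ} (hU : U ^ 2 - a * V ^ 2 = -1) (hD : (dv a).card ≤ 2) {d e : ℕ}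
    (hde : d * e = a) (hd : d % 8 = 1) (hd1 : 1 < d) {x y w : ℤ}
    (hc : d * x ^ 2 + e * y ^ 2 = w ^ 4) (hxy : IsCoprime x y) (hx : Odd x) :
    8 ∣ classNumber F := by
  by_contra h8
  have ha0 : a ≠ 0 := hsf.ne_zero
  have he : e % 8 = 5 := by
    have h1 : (d * e) % 8 = 5 := by rw [hde, ha]
    rw [Nat.mul_mod, hd, one_mul, Nat.mod_mod] at h1
    exact h1
  have hda : d ∣ a := ⟨e, hde.symm⟩
  have hea : e ∣ a := ⟨d, by rw [← hde, mul_comm]⟩
  have hsf' : Squarefree (d * e) := by rw [hde]; exact hsf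
  have hcop : Nat.Coprime d e := Nat.coprime_of_squarefree_mul hsf'
  have hpr := primes_one ha hU
  have hmod := fkb_mod hpr ha0
  have hdv : ∀ m : ℕ, m ∣ a → m % 8 = 1 → m = 1 ∨ m = d := by
    intro m hma hm8
    by_contra hcon
    rw [not_or] at hcon
    have h1 : ({1, d, m} : Finset ℕ) ⊆ dv a := by
      intro t ht
      simp only [Finset.mem_insert, Finset.mem_singleton] at ht
      simp only [dv, Finset.mem_filter, Nat.mem_divisors]
      rcases ht with rfl | rfl | rfl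
      · exact ⟨⟨one_dvd _, ha0⟩, by norm_num⟩
      · exact ⟨⟨hda, ha0⟩, hd⟩
      · exact ⟨⟨hma, ha0⟩, hm8⟩
    have h2 := Finset.card_le_card h1
    have h3 : ({1, d, m} : Finset ℕ).card = 3 := by
      rw [Finset.card_insert_of_notMem, Finset.card_insert_of_notMem, Finset.card_singleton]
      · simp only [Finset.mem_singleton]
        exact fun h => hcon.2 h.symm
      · simp only [Finset.mem_insert, Finset.mem_singleton, not_or]
        exact ⟨hd1.ne, fun h => hcon.1 h.symm⟩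
    omega
  -- e is prime
  have hep : e.Prime := by
    have he1 : e ≠ 1 := by
      rintro rfl
      omega
    have hq := Nat.minFac_prime he1
    obtain ⟨e', he'⟩ := Nat.minFac_dvd e
    by_cases he'1 : e' = 1
    · rw [he'1, mul_one] at he'
      rw [he']
      exact hq
    · exfalso
      have hqa : e.minFac ∣ a := (Nat.minFac_dvd e).trans hea
      have he'e : e' ∣ e := Dvd.intro_left _ he'.symm
      have h1 := hmod _ hqa
      have h2 := hmod _ (he'e.trans hea)
      have h3 : (e.minFac * e') % 8 = 5 := by rw [← he', he]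
      have key : ∀ m : ℕ, m ∣ e → m % 8 = 1 → m ≠ 1 → False := by
        intro m hme hm8 hm1
        rcases hdv m (hme.trans hea) hm8 with h | h
        · exact hm1 h
        · rw [h] at hme
          have h4 : d ∣ Nat.gcd d e := Nat.dvd_gcd dvd_rfl hme
          rw [hcop] at h4
          have := Nat.le_of_dvd one_pos h4
          omega
      have h4 : e.minFac % 8 = 1 ∨ e' % 8 = 1 := by
        by_contra hcon
        rw [not_or] at hcon
        have h5 : e.minFac % 8 = 5 := by omega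
        have h6 : e' % 8 = 5 := by omega
        rw [Nat.mul_mod, h5, h6] at h3
        norm_num at h3
      rcases h4 with h4 | h4
      · exact key _ (Nat.minFac_dvd e) h4 hq.one_lt.ne'
      · exact key _ he'e h4 he'1
  have hodd : Odd (d * e) := by
    rw [hde, Nat.odd_iff]
    omega
  obtain ⟨p, hp, hpN, hpd, hpe⟩ := exists_prime_nn hsf' hd1 hep.one_lt hodd (2 + a)
  have hp2 : p ≠ 2 := by omega
  have hpa : ¬ p ∣ d * e := by
    intro h
    rw [hde] at h
    have := Nat.le_of_dvd (Nat.pos_of_ne_zero ha0) h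
    omega
  have hpa' : ¬ (p : ℤ) ∣ (a : ℤ) := by
    intro h
    rw [← hde] at h
    exact hpa (Int.natCast_dvd_natCast.mp h)
  have hpa1 : jacobiSym p a = 1 := by
    haveI : NeZero d := ⟨by omega⟩
    haveI : NeZero e := ⟨hep.ne_zero⟩
    rw [← hde, jacobiSym.mul_right, hpd, hpe]
    norm_num
  have hpi : Prime (p : ℤ) := Nat.prime_iff_prime_int.mp hp
  obtain ⟨k, hk, u0, v0, hup0, huv0⟩ := f_rep4 hF hf hsf ha h8 hp hp2 hpa1
  have hk0 : k ≠ 0 := by
    rintro rfl
    exact absurd hk (by decide)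
  obtain ⟨u, v, hup, huv⟩ : ∃ u v : ℤ, IsCoprime u (p : ℤ) ∧
      u ^ 2 - a * v ^ 2 = ((p : ℤ) ^ k) ^ 4 := by
    rcases huv0 with h | h
    · exact ⟨u0, v0, hup0, h⟩
    · have hnot : ¬ ((p : ℤ) ∣ u0 ∧ (p : ℤ) ∣ v0) := by
        rintro ⟨h1, -⟩
        exact hpi.not_unit (hup0.isUnit_of_dvd' h1 dvd_rfl)
      obtain ⟨u', v', h1, h2⟩ := twist hU (p := (p : ℤ)) (m := ((p : ℤ) ^ k) ^ 4) h hnot
      refine ⟨u', v', ?_, h1⟩
      have h3 : ¬ (p : ℤ) ∣ u' := by
        intro h4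
        apply h2
        refine ⟨h4, ?_⟩
        have h5 : (p : ℤ) ∣ ((p : ℤ) ^ k) ^ 4 :=
          dvd_pow (dvd_pow_self _ hk0) (by norm_num)
        have h6 : (p : ℤ) ∣ a * v' ^ 2 := by
          have h7 : (a : ℤ) * v' ^ 2 = u' ^ 2 - ((p : ℤ) ^ k) ^ 4 := by rw [← h1]; ring
          rw [h7]
          exact dvd_sub (dvd_pow h4 (by norm_num)) h5
        rcases hpi.dvd_or_dvd h6 with h7 | h7
        · exact absurd h7 hpa'
        · exact hpi.dvd_of_dvd_pow h7
      exact ((Prime.coprime_iff_not_dvd hpi).mpr h3).symm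
  have hpodd : Odd (p : ℤ) := by
    have := hp.odd_of_ne_two hp2
    exact_mod_cast this
  have hnodd : Odd ((p : ℤ) ^ k) := hpodd.pow
  have hn1' : (1 : ℤ) < (p : ℤ) ^ k := one_lt_pow₀ (by exact_mod_cast hp.one_lt) hk0
  obtain ⟨r, r', hrr, f1, g1, hfg, hfg2⟩ := fac4 hsf ha hnodd hn1'.ne' (by omega)
    hup.pow_right huv
  have hnd := fkb_cop hp hfg
  have hra : r ∣ a := ⟨r', hrr.symm⟩
  have hra' : r' ∣ a := ⟨r, by rw [← hrr, mul_comm]⟩
  have hm1 := hmod _ hra
  have hm2 := hmod _ hra'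
  have hm3 : (r * r') % 8 = 5 := by rw [hrr, ha]
  have hdz : (d : ℤ) ≠ 0 := by
    have : d ≠ 0 := by omega
    exact_mod_cast this
  have hcz : (d : ℤ) * x ^ 2 + e * y ^ 2 = (w ^ 2) ^ 2 := by rw [hc]; ring
  have hUde : U ^ 2 - ((d * e : ℕ) : ℤ) * V ^ 2 = -1 := by rw [hde]; exact hU
  -- the two closing steps
  have close1 : ∀ s t : ℤ, ¬ ((p : ℤ) ∣ s ∧ (p : ℤ) ∣ t) →
      (s ^ 2 - (a : ℤ) * t ^ 2 = ((p : ℤ) ^ k) ^ 2 ∨
        s ^ 2 - (a : ℤ) * t ^ 2 = -((p : ℤ) ^ k) ^ 2) → False := by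
    intro s t hst h
    have h1 := plus_one hsf' hd he hcz hxy hUde hp hp2 hpa hk0 hst (by rw [hde]; exact h)
    exact fkb_jac hpd hk h1
  have close2 : ∀ s t : ℤ, ¬ ((p : ℤ) ∣ s ∧ (p : ℤ) ∣ t) →
      ((e : ℤ) * s ^ 2 - d * t ^ 2 = ((p : ℤ) ^ k) ^ 2 ∨
        (e : ℤ) * s ^ 2 - d * t ^ 2 = -((p : ℤ) ^ k) ^ 2) → False := by
    intro s t hst h
    rcases h with h | h
    · have h1 := sym_one hsf' hd he hep hc hxy hx hp hp2 hpa hst h
      exact fkb_jac hpe hk h1
    · obtain ⟨t', s', h2, h3⟩ := twist_de hUde (p := (p : ℤ)) (m := ((p : ℤ) ^ k) ^ 2) h hst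
      have h1 := sym_one hsf' hd he hep hc hxy hx hp hp2 hpa h3 h2
      exact fkb_jac hpe hk h1
  have h5 : r % 8 = 1 ∨ (r % 8 = 5 ∧ r' % 8 = 1) := by
    by_contra hcon
    rw [not_or, not_and] at hcon
    have h6 : r % 8 = 5 := by omega
    have h7 : r' % 8 = 5 := by
      have := hcon.2 h6
      omega
    rw [Nat.mul_mod, h6, h7] at hm3
    norm_num at hm3
  rcases h5 with h5 | ⟨h5, h5'⟩
  · rcases hdv r hra h5 with rfl | rfl
    · have hr' : r' = a := by rw [← hrr, one_mul]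
      rw [hr'] at hfg2
      apply close1 f1 g1 hnd
      rcases hfg2 with h | h
      · left
        rw [← h]
        push_cast
        ring
      · right
        rw [← h]
        push_cast
        ring
    · have hr' : r' = e := by
        have h6 : r * r' = r * e := by rw [hrr, hde]
        exact Nat.eq_of_mul_eq_mul_left (by omega) h6
      rw [hr'] at hfg2
      apply close2 g1 f1 (fun h => hnd ⟨h.2, h.1⟩)
      rcases hfg2 with h | h
      · right
        rw [← h]
        ring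
      · left
        have : (e : ℤ) * g1 ^ 2 - r * f1 ^ 2 = -(r * f1 ^ 2 - e * g1 ^ 2) := by ring
        rw [this, h]
        ring
  · rcases hdv r' hra' h5' with rfl | rfl
    · have hr : r = a := by rw [← hrr, mul_one]
      rw [hr] at hfg2
      apply close1 g1 f1 (fun h => hnd ⟨h.2, h.1⟩)
      rcases hfg2 with h | h
      · right
        rw [← h]
        push_cast
        ring
      · left
        have : g1 ^ 2 - (a : ℤ) * f1 ^ 2 = -((a : ℤ) * f1 ^ 2 - (1 : ℕ) * g1 ^ 2) := by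
          push_cast
          ring
        rw [this, h]
        ring
    · have hr : r = e := by
        have h6 : r' * r = r' * e := by rw [mul_comm r' r, hrr, hde]
        exact Nat.eq_of_mul_eq_mul_left (by omega) h6
      rw [hr] at hfg2
      exact close2 f1 g1 hnd hfg2

end Pool.Agent.Work.MP_8efaaa_nt.Rg
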