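import Mathlib
import Pool.Agent.Work.MP_8efaaa_nt.Rg.Defs
import Pool.Agent.Work.MP_8efaaa_nt.Rg.FUn
import Pool.Agent.Work.MP_8efaaa_nt.Rf.FSp
import Pool.Agent.Work.MP_8efaaa_nt.Rf.FRi
import Pool.Agent.Work.MP_8efaaa_nt.Rf.FRe
import Pool.Agent.Work.MP_8efaaa_nt.Rf.FRk
import Pool.Agent.Work.MP_8efaaa_nt.Rf.FDi

/-!
# Module FKc: at least three prime factors and a conic

`dv a` has at least three elements, `d ∈ dv a`, `d > 1`; choose `d' ∈ dv a`, `d' ≠ 1, d`. Suppose `8 ∤ h`, `h` the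
class number of `F`: `h ∣ 4 m` with `m` odd. `exists_prime_pn` (twice): primes `p1 > 2 + a` with `(p1 / d) = -1`,
`(p1 / d') = 1`, `(p1 / a) = 1`, and `p2 > p1` with `(p2 / d') = -1`, `(p2 / d) = 1`, `(p2 / a) = 1`; prime ideals
`q1, q2` of norms `p1, p2` (`f_split`), `C1, C2` the classes of `q1 ^ m`, `q2 ^ m`: `C ^ 4 = 1`.
(1) `C1 ^ 2 ≠ 1`: otherwise `q1 ^ (2 m) = (γ)`, `f_cube` (as in `f_rep`): `γ ^ 3 = u + v f`,
`u ^ 2 - a v ^ 2 = ± (p1 ^ (3 m)) ^ 2`, `p1` does not divide both `u` and `v` (it would divide `γ ^ 3`, `(p1) ∣ q1 ^ (6 m)`,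
contradiction to `f_split`). `plus_one`: `(p1 ^ (3 m) / d) = 1`, but `3 m` is odd.
(2) So `C1` has order `4`, `4 ∣ h`, and the quotient of the class group by `⟨C1⟩` has order `h / 4`, which is odd.
The image of `C2` has an order dividing `4`, so it is trivial: `C2 ∈ ⟨C1⟩`, `C2 = C1 ^ j` with `j < 4`,
`C2 * C1 ^ (4 - j) = 1`: the ideal `q2 ^ m * q1 ^ (m (4 - j))` is principal, `= (γ)`, of norm
`n = p2 ^ m * p1 ^ (m (4 - j))`. As in `Rf/FRk.lean` (`frk_sym`, private, copy it): `f_half`: `± 4 n = u ^ 2 - a v ^ 2`,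
so `(n / d') = 1`. But `(n / d') = (p2 / d') ^ m * (p1 / d') ^ (m (4 - j)) = -1`: contradiction.
-/

set_option autoImplicit false

namespace Pool.Agent.Work.MP_8efaaa_nt.Rg

open NumberField nonZeroDivisors Pool.Agent.Work.MP_8efaaa_nt.Rf

variable {F : Type*} [Field F] [NumberField F] {a : ℕ} {f : F}

private theorem fkc_odd {h : ℕ} (h8 : ¬ 8 ∣ h) : ∃ m : ℕ, Odd m ∧ h ∣ 4 * m := by
  have h0 : h ≠ 0 := by
    rintro rfl
    exact h8 (dvd_zero _)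
  obtain ⟨k, m, hm, hk⟩ := Nat.exists_eq_two_pow_mul_odd (n := h) h0
  refine ⟨m, hm, ?_⟩
  have hk2 : k ≤ 2 := by
    by_contra hcon
    apply h8
    obtain ⟨l, rfl⟩ : ∃ l, k = l + 3 := ⟨k - 3, by omega⟩
    rw [hk, pow_add]
    exact ⟨2 ^ l * m, by ring⟩
  rw [hk]
  exact Nat.mul_dvd_mul_right (by
    have : (4 : ℕ) = 2 ^ 2 := by norm_num
    rw [this]
    exact pow_dvd_pow 2 hk2) m

private theorem fkc_group {G : Type*} [CommGroup G] [Finite G] (x y : G) (hx : x ^ 4 = 1)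
    (hx2 : x ^ 2 ≠ 1) (hy : y ^ 4 = 1) (h8 : ¬ 8 ∣ Nat.card G) : ∃ j : ℕ, y * x ^ j = 1 := by
  have hox : orderOf x = 4 := by
    have := orderOf_eq_prime_pow (x := x) (p := 2) (n := 1) (by simpa using hx2) (by simpa using hx)
    simpa using this
  have hcx : Nat.card (Subgroup.zpowers x) = 4 := by rw [Nat.card_zpowers, hox]
  have hcard := Subgroup.card_eq_card_quotient_mul_card_subgroup (Subgroup.zpowers x)
  rw [hcx] at hcard
  have hodd : Odd (Nat.card (G ⧸ Subgroup.zpowers x)) := by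
    rw [← Nat.not_even_iff_odd]
    rintro ⟨l, hl⟩
    exact h8 ⟨l, by rw [hcard, hl]; ring⟩
  have h1 : orderOf ((y : G) : G ⧸ Subgroup.zpowers x) ∣ 2 ^ 2 := by
    apply orderOf_dvd_of_pow_eq_one
    rw [← QuotientGroup.mk_pow]
    have : y ^ 2 ^ 2 = 1 := by simpa using hy
    rw [this]
    rfl
  have h2 : orderOf ((y : G) : G ⧸ Subgroup.zpowers x) ∣ Nat.card (G ⧸ Subgroup.zpowers x) :=
    orderOf_dvd_natCard _
  have hcop : Nat.Coprime (2 ^ 2) (Nat.card (G ⧸ Subgroup.zpowers x)) :=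
    Nat.Coprime.pow_left 2 ((Nat.coprime_two_left).mpr hodd)
  have h3 : orderOf ((y : G) : G ⧸ Subgroup.zpowers x) = 1 :=
    Nat.eq_one_of_dvd_coprimes hcop h1 h2
  have h4 : y ∈ Subgroup.zpowers x := (QuotientGroup.eq_one_iff y).mp (orderOf_eq_one_iff.mp h3)
  have h5 : y⁻¹ ∈ Subgroup.zpowers x := (Subgroup.zpowers x).inv_mem h4
  rw [← mem_powers_iff_mem_zpowers] at h5
  obtain ⟨j, hj⟩ := h5
  refine ⟨j, ?_⟩
  have hj' : x ^ j = y⁻¹ := hj
  rw [hj', mul_inv_cancel]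

private theorem fkc_prin (Q : (Ideal (𝓞 F))⁰) (h : ClassGroup.mk0 Q = 1) :
    (Q : Ideal (𝓞 F)).IsPrincipal := (ClassGroup.mk0_eq_one_iff Q.2).mp h

private theorem fkc_sym (hF : Module.finrank ℚ F = 2) (hf : f ^ 2 = (a : F)) (hsf : Squarefree a)
    (ha : a % 8 = 5) {d : ℕ} (hd : d ∣ a) (h8 : d % 8 = 1) {I : Ideal (𝓞 F)}
    (hI : I.IsPrincipal) {n : ℕ} (hn : Ideal.absNorm I = n) (hJ : jacobiSym n d ≠ 0) :
    jacobiSym n d = 1 := by
  obtain ⟨α, hα⟩ := hI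
  rw [Ideal.submodule_span_eq] at hα
  obtain ⟨u, v, -, huv⟩ := f_half hF hf hsf ha α
  have hna : (Algebra.norm ℤ α).natAbs = n := by
    rw [← hn, hα, Ideal.absNorm_span_singleton]
  have hdo : Odd d := Nat.odd_iff.mpr (by omega)
  have h2 : jacobiSym 4 d = 1 := by
    have : (4 : ℤ) = 2 ^ 2 := by norm_num
    rw [this]
    apply jacobiSym.sq_one'
    rw [Int.gcd_eq_natAbs]
    have : Nat.Coprime 2 d := (Nat.coprime_two_left).mpr hdo
    simpa using this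
  have hm1 : jacobiSym (-1) d = 1 := by
    rw [jacobiSym.at_neg_one hdo]
    rw [ZMod.χ₄_nat_one_mod_four (by omega)]
  have hs : jacobiSym (Algebra.norm ℤ α) d = jacobiSym n d := by
    rcases Int.natAbs_eq (Algebra.norm ℤ α) with h | h
    · rw [h, hna]
    · rw [h, hna, jacobiSym.neg _ hdo, ZMod.χ₄_nat_one_mod_four (by omega), one_mul]
  have hmod : jacobiSym (4 * Algebra.norm ℤ α) d = jacobiSym (u ^ 2) d := by
    apply jacobiSym.mod_left'
    rw [huv]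
    obtain ⟨k, hk⟩ := hd
    have : (u ^ 2 - (a : ℤ) * v ^ 2) = u ^ 2 + d * (-(k * v ^ 2)) := by rw [hk]; push_cast; ring
    rw [this, Int.add_mul_emod_self_left]
  rw [jacobiSym.mul_left, h2, one_mul, hs, jacobiSym.pow_left] at hmod
  rcases jacobiSym.trichotomy u d with h | h | h
  · rw [h] at hmod; exact absurd (hmod.trans (by norm_num)) hJ
  · rw [hmod, h]; norm_num
  · rw [hmod, h]; norm_num

private theorem fkc_rep (hF : Module.finrank ℚ F = 2) (hf : f ^ 2 = (a : F)) (hsf : Squarefree a)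
    (ha : a % 8 = 5) {p : ℕ} {q : Ideal (𝓞 F)} (hqn : Ideal.absNorm q = p)
    (hqk : ∀ k : ℕ, ¬ Ideal.span {(p : 𝓞 F)} ∣ q ^ k) {m : ℕ} {α : 𝓞 F}
    (hα : q ^ (2 * m) = Ideal.span {α}) :
    ∃ u v : ℤ, ¬ ((p : ℤ) ∣ u ∧ (p : ℤ) ∣ v) ∧
      (u ^ 2 - a * v ^ 2 = ((p : ℤ) ^ (3 * m)) ^ 2 ∨
        u ^ 2 - a * v ^ 2 = -((p : ℤ) ^ (3 * m)) ^ 2) := by
  have hnorm : (Algebra.norm ℤ α).natAbs = p ^ (2 * m) := by
    rw [← Ideal.absNorm_span_singleton, ← hα, map_pow, hqn]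
  obtain ⟨u, v, huv, hN⟩ := f_cube hF hf hsf ha α
  have hN2 : u ^ 2 - a * v ^ 2 = ((p : ℤ) ^ (3 * m)) ^ 2 ∨
      u ^ 2 - a * v ^ 2 = -((p : ℤ) ^ (3 * m)) ^ 2 := by
    have h1 : Algebra.norm ℤ α = (p : ℤ) ^ (2 * m) ∨ Algebra.norm ℤ α = -(p : ℤ) ^ (2 * m) := by
      rcases Int.natAbs_eq (Algebra.norm ℤ α) with h | h
      · left
        rw [h, hnorm]
        push_cast
        ring
      · right
        rw [h, hnorm]
        push_cast
        ring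
    rcases h1 with h | h
    · left
      rw [← hN, h]
      ring
    · right
      rw [← hN, h]
      ring
  refine ⟨u, v, ?_, hN2⟩
  rintro ⟨hpu, hpv⟩
  obtain ⟨u', hu'⟩ := hpu
  obtain ⟨v', hv'⟩ := hpv
  have hfi : IsIntegral ℤ f := by
    refine IsIntegral.of_pow (n := 2) (by norm_num) ?_
    rw [hf]
    exact_mod_cast (isIntegral_algebraMap (R := ℤ) (A := F) (x := (a : ℤ)))
  set φ : 𝓞 F := ⟨f, hfi⟩ with hφ
  have hφf : algebraMap (𝓞 F) F φ = f := rfl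
  have hα3 : α ^ 3 = (p : 𝓞 F) * ((u' : 𝓞 F) + (v' : 𝓞 F) * φ) := by
    apply FaithfulSMul.algebraMap_injective (𝓞 F) F
    rw [huv, hu', hv']
    simp only [map_mul, map_add, map_natCast, map_intCast, hφf]
    push_cast
    ring
  apply hqk (2 * m * 3)
  rw [pow_mul, hα, Ideal.span_singleton_pow, hα3]
  rw [Ideal.dvd_iff_le, Ideal.span_singleton_le_span_singleton]
  exact dvd_mul_right _ _

theorem k_three (hF : Module.finrank ℚ F = 2) (hf : f ^ 2 = (a : F)) (hsf : Squarefree a)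
    (ha : a % 8 = 5) {U V : ℤ} (hU : U ^ 2 - a * V ^ 2 = -1) (hD : 3 ≤ (dv a).card) {d e : ℕ}
    (hde : d * e = a) (hd : d % 8 = 1) (hd1 : 1 < d) {x y z : ℤ}
    (hc : d * x ^ 2 + e * y ^ 2 = z ^ 2) (hxy : IsCoprime x y) :
    8 ∣ classNumber F := by
  by_contra h8
  have hcard : classNumber F = Nat.card (ClassGroup (𝓞 F)) := by
    rw [classNumber, Nat.card_eq_fintype_card]
  obtain ⟨m, hmo, hm⟩ := fkc_odd h8
  have hm0 : m ≠ 0 := by
    rintro rfl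
    exact absurd hmo (by decide)
  have he : e % 8 = 5 := by
    have h1 : (d * e) % 8 = 5 := by rw [hde, ha]
    rw [Nat.mul_mod, hd, one_mul, Nat.mod_mod] at h1
    exact h1
  have hda : d ∣ a := ⟨e, hde.symm⟩
  have ha0 : a ≠ 0 := hsf.ne_zero
  -- the second divisor
  obtain ⟨d', hd'm, hd'n⟩ : ∃ d' ∈ dv a, d' ∉ ({1, d} : Finset ℕ) := by
    apply Finset.exists_mem_notMem_of_card_lt_card
    exact lt_of_le_of_lt Finset.card_le_two (by omega)
  simp only [Finset.mem_insert, Finset.mem_singleton, not_or] at hd'n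
  obtain ⟨hd'1, hd'd⟩ := hd'n
  simp only [dv, Finset.mem_filter, Nat.mem_divisors] at hd'm
  obtain ⟨⟨hd'a, -⟩, h8'⟩ := hd'm
  have h1' : 1 < d' := by omega
  obtain ⟨p1, hp1, hl1, hs1, hs1', hsa1⟩ :=
    exists_prime_pn hsf ha hda hd'a hd h8' hd1 h1' (Ne.symm hd'd) (2 + a)
  obtain ⟨p2, hp2, hl2, hs2', hs2, hsa2⟩ :=
    exists_prime_pn hsf ha hd'a hda h8' hd h1' hd1 hd'd p1
  obtain ⟨q1, -, hq1, hqk1⟩ := f_split hF hf hsf ha hp1 (by omega) hsa1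
  obtain ⟨q2, -, hq2, -⟩ := f_split hF hf hsf ha hp2 (by omega) hsa2
  have hb1 : q1 ∈ (Ideal (𝓞 F))⁰ := by
    rw [mem_nonZeroDivisors_iff_ne_zero]
    rintro rfl
    rw [Ideal.zero_eq_bot, Ideal.absNorm_bot] at hq1
    exact hp1.ne_zero hq1.symm
  have hb2 : q2 ∈ (Ideal (𝓞 F))⁰ := by
    rw [mem_nonZeroDivisors_iff_ne_zero]
    rintro rfl
    rw [Ideal.zero_eq_bot, Ideal.absNorm_bot] at hq2
    exact hp2.ne_zero hq2.symm
  set Q1 : (Ideal (𝓞 F))⁰ := ⟨q1, hb1⟩ with hQ1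
  set Q2 : (Ideal (𝓞 F))⁰ := ⟨q2, hb2⟩ with hQ2
  have key : ∀ x : ClassGroup (𝓞 F), (x ^ m) ^ 4 = 1 := by
    intro x
    rw [← pow_mul, mul_comm]
    have h : orderOf x ∣ 4 * m := (orderOf_dvd_natCard x).trans (by rw [← hcard]; exact hm)
    exact orderOf_dvd_iff_pow_eq_one.mp h
  -- (1)
  have hc1 : ((ClassGroup.mk0 Q1) ^ m) ^ 2 ≠ 1 := by
    intro hcc
    have hprin : ((Q1 ^ (2 * m) : (Ideal (𝓞 F))⁰) : Ideal (𝓞 F)).IsPrincipal := by
      apply fkc_prin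
      rw [map_pow, mul_comm, pow_mul]
      exact hcc
    obtain ⟨α, hα⟩ := hprin
    rw [Ideal.submodule_span_eq] at hα
    have hα' : q1 ^ (2 * m) = Ideal.span {α} := by
      rw [← hα, SubmonoidClass.coe_pow]
    obtain ⟨u, v, hpuv, huv⟩ := fkc_rep hF hf hsf ha hq1 hqk1 hα'
    have hpa : ¬ p1 ∣ d * e := by
      rw [hde]
      intro h
      have := Nat.le_of_dvd (Nat.pos_of_ne_zero ha0) h
      omega
    have hj := plus_one (d := d) (e := e) (by rw [hde]; exact hsf) hd he hc hxy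
      (U := U) (V := V) (by rw [hde]; exact hU) hp1 (by omega) hpa (k := 3 * m) (by omega)
      (f := u) (g := v) hpuv (by rw [hde]; exact huv)
    have hodd3 : Odd (3 * m) := (by decide : Odd 3).mul hmo
    rw [jacobiSym.pow_left, hs1, hodd3.neg_one_pow] at hj
    norm_num at hj
  -- (2)
  obtain ⟨j, hj⟩ := fkc_group ((ClassGroup.mk0 Q1) ^ m) ((ClassGroup.mk0 Q2) ^ m) (key _) hc1
    (key _) (by rw [← hcard]; exact h8)
  have hprin : ((Q2 ^ m * (Q1 ^ m) ^ j : (Ideal (𝓞 F))⁰) : Ideal (𝓞 F)).IsPrincipal := by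
    apply fkc_prin
    rw [map_mul, map_pow, map_pow, map_pow]
    exact hj
  have hn : Ideal.absNorm ((Q2 ^ m * (Q1 ^ m) ^ j : (Ideal (𝓞 F))⁰) : Ideal (𝓞 F))
      = p2 ^ m * (p1 ^ m) ^ j := by
    rw [Submonoid.coe_mul, SubmonoidClass.coe_pow, SubmonoidClass.coe_pow, SubmonoidClass.coe_pow,
      map_mul, map_pow, map_pow, map_pow, hQ1, hQ2, hq1, hq2]
  have hjj : jacobiSym ((p2 ^ m * (p1 ^ m) ^ j : ℕ) : ℤ) d' = -1 := by
    push_cast
    rw [jacobiSym.mul_left, jacobiSym.pow_left, jacobiSym.pow_left, jacobiSym.pow_left, hs2', hs1',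
      hmo.neg_one_pow, one_pow, one_pow, mul_one]
  have := fkc_sym hF hf hsf ha hd'a h8' hprin hn (by rw [hjj]; norm_num)
  rw [hjj] at this
  norm_num at this

end Pool.Agent.Work.MP_8efaaa_nt.Rg
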