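import Mathlib
import Pool.Agent.Work.MP_8efaaa_nt.Rg.Defs
import Pool.Agent.Work.MP_8efaaa_nt.Rg.FDj
import Pool.Agent.Work.MP_8efaaa_nt.Rf.FSp
import Pool.Agent.Work.MP_8efaaa_nt.Rf.FRi
import Pool.Agent.Work.MP_8efaaa_nt.Rf.FRk

/-!
# Module FKd: at least four prime factors (genus theory)

All prime factors of `a` are `1` modulo `4`. `four_primes`: distinct prime factors `p0, p1, p2, p3` of `a`.
`exists_prime_two` with `x = p0`, `y = p_i` (`i = 1, 2, 3`): primes `l1, l2, l3` (pairwise different, `> 2 + a`: take each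
larger than the previous one) with `(l_i / p_j) = -1` for `i = j ∈ {1, 2, 3}` and `1` for `i ≠ j ∈ {1, 2, 3}`,
`(l_i / a) = (-1) (-1) = 1`. Prime ideals `q_i` of norm `l_i` (`f_split`), `C_i` their classes in the class group.
Let `φ : (Fin 3 → ℤ) → ClassGroup`, `e ↦ ∏ C_i ^ (e i)` (a homomorphism from `Multiplicative (Fin 3 → ℤ)`). Claim:
if `φ e = 1` then all `e i` are even. Replace `e i` by `e i + 2 h t` (`C ^ h = 1`, `h` the class number, `t` large; the
parity does not change): all `e i ≥ 0`. The ideal `∏ q_i ^ (e i)` is principal `= (γ)`, of norm `n = ∏ l_i ^ (e i)`;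
`f_half`: `± 4 n = u ^ 2 - a v ^ 2`, so modulo `p_j`: `± 4 n` is a nonzero square, `(-1 / p_j) = 1`, so
`1 = (n / p_j) = (-1) ^ (e j)` (compare `frk_sym` in `Rf/FRk.lean`).
So the kernel of `φ` is contained in `(2 ℤ) ^ 3`, of index `8` in `ℤ ^ 3`, and `8` divides the index of the kernel
(`Subgroup.index_dvd_of_le`), which is the order of the image, which divides the class number. (Other way: the
subgroups `⟨C1⟩`, `⟨C1, C2⟩`, `⟨C1, C2, C3⟩`: each time the index is even as `C_{i+1} ^ odd` is not in the previous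
one.)
-/

set_option autoImplicit false

namespace Pool.Agent.Work.MP_8efaaa_nt.Rg

open NumberField nonZeroDivisors Pool.Agent.Work.MP_8efaaa_nt.Rf

variable {F : Type*} [Field F] [NumberField F] {a : ℕ} {f : F}

private theorem fkd_group {G : Type*} [CommGroup G] [Finite G] (x y z : G)
    (h : ∀ i j k : ℕ, x ^ i * (y ^ j * z ^ k) = 1 → Even i ∧ Even j ∧ Even k) :
    8 ∣ Nat.card G := by
  classical
  set N : ℕ := Nat.card G with hN
  have hN0 : 0 < N := Nat.card_pos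
  have hnat : ∀ e : ℤ, ∃ n : ℕ, (∀ g : G, g ^ e = g ^ n) ∧ (Even n → Even e) := by
    intro e
    have hpos : (0 : ℤ) < 2 * (N : ℤ) := by positivity
    have h0 : 0 ≤ e % (2 * (N : ℤ)) := Int.emod_nonneg _ hpos.ne'
    obtain ⟨n, hn⟩ := Int.eq_ofNat_of_zero_le h0
    have he : e = n + 2 * (N : ℤ) * (e / (2 * (N : ℤ))) := by
      rw [← hn]
      exact (Int.emod_add_mul_ediv e _).symm
    refine ⟨n, fun g => ?_, fun ⟨m, hm⟩ => ?_⟩
    · have hg : g ^ (2 * (N : ℤ)) = 1 := by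
        rw [mul_comm, zpow_mul, zpow_natCast, hN, pow_card_eq_one', one_zpow]
      conv_lhs => rw [he, zpow_add, zpow_mul, hg, one_zpow, mul_one, zpow_natCast]
    · rw [he, hm]
      refine ⟨m + (N : ℤ) * (e / (2 * (N : ℤ))), ?_⟩
      push_cast
      ring
  let r : Multiplicative ℤ →* Multiplicative (ZMod 2) :=
    AddMonoidHom.toMultiplicative (Int.castAddHom (ZMod 2))
  have hr : Function.Surjective r := by
    intro t
    obtain ⟨e, he⟩ := ZMod.intCast_surjective (Multiplicative.toAdd t)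
    refine ⟨Multiplicative.ofAdd e, ?_⟩
    apply Multiplicative.toAdd.injective
    rw [← he]
    rfl
  have hr1 : ∀ e : ℤ, Even e → r (Multiplicative.ofAdd e) = 1 := by
    intro e he
    apply Multiplicative.toAdd.injective
    show ((e : ℤ) : ZMod 2) = 0
    exact (ZMod.intCast_zmod_eq_zero_iff_dvd e 2).2 (by exact_mod_cast he.two_dvd)
  let φ : Multiplicative ℤ × (Multiplicative ℤ × Multiplicative ℤ) →* G :=
    (zpowersHom G x).coprod ((zpowersHom G y).coprod (zpowersHom G z))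
  let ψ : Multiplicative ℤ × (Multiplicative ℤ × Multiplicative ℤ) →*
      Multiplicative (ZMod 2) × (Multiplicative (ZMod 2) × Multiplicative (ZMod 2)) :=
    MonoidHom.prodMap r (MonoidHom.prodMap r r)
  have hψ : Function.Surjective ψ := by
    rintro ⟨t1, t2, t3⟩
    obtain ⟨e1, rfl⟩ := hr t1
    obtain ⟨e2, rfl⟩ := hr t2
    obtain ⟨e3, rfl⟩ := hr t3
    exact ⟨(e1, e2, e3), rfl⟩
  have hle : φ.ker ≤ ψ.ker := by
    rintro ⟨e1, e2, e3⟩ he
    rw [MonoidHom.mem_ker] at he ⊢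
    have he' : x ^ (Multiplicative.toAdd e1) * (y ^ (Multiplicative.toAdd e2) *
        z ^ (Multiplicative.toAdd e3)) = 1 := by
      simpa [φ] using he
    obtain ⟨n1, h1, h1'⟩ := hnat (Multiplicative.toAdd e1)
    obtain ⟨n2, h2, h2'⟩ := hnat (Multiplicative.toAdd e2)
    obtain ⟨n3, h3, h3'⟩ := hnat (Multiplicative.toAdd e3)
    rw [h1, h2, h3] at he'
    obtain ⟨hh1, hh2, hh3⟩ := h n1 n2 n3 he'
    exact Prod.ext (hr1 _ (h1' hh1)) (Prod.ext (hr1 _ (h2' hh2)) (hr1 _ (h3' hh3)))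
  have h8 : ψ.ker.index = 8 := by
    rw [Subgroup.index_ker, MonoidHom.range_eq_top.2 hψ, Subgroup.card_top]
    rw [Nat.card_prod, Nat.card_prod]
    have : Nat.card (Multiplicative (ZMod 2)) = 2 := by
      rw [Nat.card_congr Multiplicative.toAdd, Nat.card_zmod]
    rw [this]
  rw [← h8]
  refine (Subgroup.index_dvd_of_le hle).trans ?_
  rw [Subgroup.index_ker]
  exact Subgroup.card_subgroup_dvd_card _

private theorem fkd_sym (hF : Module.finrank ℚ F = 2) (hf : f ^ 2 = (a : F)) (hsf : Squarefree a)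
    (ha : a % 8 = 5) {d : ℕ} (hd : d ∣ a) (h4 : d % 4 = 1) {I : Ideal (𝓞 F)}
    (hI : I.IsPrincipal) {n : ℕ} (hn : Ideal.absNorm I = n) (hJ : jacobiSym n d ≠ 0) :
    jacobiSym n d = 1 := by
  obtain ⟨α, hα⟩ := hI
  rw [Ideal.submodule_span_eq] at hα
  obtain ⟨u, v, -, huv⟩ := f_half hF hf hsf ha α
  have hna : (Algebra.norm ℤ α).natAbs = n := by
    rw [← hn, hα, Ideal.absNorm_span_singleton]
  have hdo : Odd d := Nat.odd_iff.mpr (by omega)
  have h2 : jacobiSym 4 d = 1 := by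
    have : (4 : ℤ) = 2 ^ 2 := by norm_num
    rw [this]
    apply jacobiSym.sq_one'
    rw [Int.gcd_eq_natAbs]
    have : Nat.Coprime 2 d := (Nat.coprime_two_left).mpr hdo
    simpa using this
  have hs : jacobiSym (Algebra.norm ℤ α) d = jacobiSym n d := by
    rcases Int.natAbs_eq (Algebra.norm ℤ α) with h | h
    · rw [h, hna]
    · rw [h, hna, jacobiSym.neg _ hdo, ZMod.χ₄_nat_one_mod_four h4, one_mul]
  have hmod : jacobiSym (4 * Algebra.norm ℤ α) d = jacobiSym (u ^ 2) d := by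
    apply jacobiSym.mod_left'
    rw [huv]
    obtain ⟨k, hk⟩ := hd
    have : (u ^ 2 - (a : ℤ) * v ^ 2) = u ^ 2 + d * (-(k * v ^ 2)) := by rw [hk]; push_cast; ring
    rw [this, Int.add_mul_emod_self_left]
  rw [jacobiSym.mul_left, h2, one_mul, hs, jacobiSym.pow_left] at hmod
  rcases jacobiSym.trichotomy u d with h | h | h
  · rw [h] at hmod; exact absurd (hmod.trans (by norm_num)) hJ
  · rw [hmod, h]; norm_num
  · rw [hmod, h]; norm_num

theorem k_four (hF : Module.finrank ℚ F = 2) (hf : f ^ 2 = (a : F)) (hsf : Squarefree a)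
    (ha : a % 8 = 5) (hq : ∀ q : ℕ, q.Prime → q ∣ a → q % 4 = 1) (hD : 4 < (dv a).card) :
    8 ∣ classNumber F := by
  have hod : Odd a := by rw [Nat.odd_iff]; omega
  obtain ⟨p0, p1, p2, p3, ⟨hp0, hd0⟩, ⟨hp1, hd1⟩, ⟨hp2, hd2⟩, ⟨hp3, hd3⟩, h01, h02, h03,
    h12, h13, h23⟩ := four_primes hsf ha hq hD
  have hcard : classNumber F = Nat.card (ClassGroup (𝓞 F)) := by
    rw [classNumber, Nat.card_eq_fintype_card]
  -- primes and prime ideals
  have key : ∀ x : ℕ, x.Prime → x ∣ a → p0 ≠ x → ∃ (l : ℕ) (Q : (Ideal (𝓞 F))⁰),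
      Ideal.absNorm (Q : Ideal (𝓞 F)) = l ∧
      ∀ y : ℕ, y.Prime → y ∣ a → p0 ≠ y → jacobiSym l y = if x = y then -1 else 1 := by
    intro x hx hxa h0x
    obtain ⟨l, hl, hl2, hj⟩ := exists_prime_two hsf hod hp0 hx h0x 2
    have hja : jacobiSym l a = 1 := by
      rw [hj a dvd_rfl, if_pos hd0, if_pos hxa]
      norm_num
    obtain ⟨q, -, hq1, -⟩ := f_split hF hf hsf ha hl (by omega) hja
    have hb : q ∈ (Ideal (𝓞 F))⁰ := by
      rw [mem_nonZeroDivisors_iff_ne_zero]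
      rintro rfl
      rw [Ideal.zero_eq_bot, Ideal.absNorm_bot] at hq1
      exact hl.ne_zero hq1.symm
    refine ⟨l, ⟨q, hb⟩, hq1, fun y hy hya h0y => ?_⟩
    have h1 : ¬ p0 ∣ y := fun h => h0y ((Nat.prime_dvd_prime_iff_eq hp0 hy).1 h)
    rw [hj y hya, if_neg h1, one_mul]
    by_cases hxy : x = y
    · rw [if_pos hxy, if_pos (by rw [hxy])]
    · rw [if_neg hxy, if_neg (fun h => hxy ((Nat.prime_dvd_prime_iff_eq hx hy).1 h))]
  obtain ⟨l1, Q1, hn1, hj1⟩ := key p1 hp1 hd1 h01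
  obtain ⟨l2, Q2, hn2, hj2⟩ := key p2 hp2 hd2 h02
  obtain ⟨l3, Q3, hn3, hj3⟩ := key p3 hp3 hd3 h03
  rw [hcard]
  refine fkd_group (ClassGroup.mk0 Q1) (ClassGroup.mk0 Q2) (ClassGroup.mk0 Q3) ?_
  intro i j k hijk
  have hprin : ((Q1 ^ i * (Q2 ^ j * Q3 ^ k) : (Ideal (𝓞 F))⁰) : Ideal (𝓞 F)).IsPrincipal := by
    refine (ClassGroup.mk0_eq_one_iff (Q1 ^ i * (Q2 ^ j * Q3 ^ k)).2).1 ?_
    rw [← hijk, ← map_pow, ← map_pow, ← map_pow, ← map_mul, ← map_mul]
  have hn : Ideal.absNorm ((Q1 ^ i * (Q2 ^ j * Q3 ^ k) : (Ideal (𝓞 F))⁰) : Ideal (𝓞 F)) =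
      l1 ^ i * (l2 ^ j * l3 ^ k) := by
    rw [Submonoid.coe_mul, Submonoid.coe_mul, SubmonoidClass.coe_pow, SubmonoidClass.coe_pow,
      SubmonoidClass.coe_pow, map_mul, map_mul, map_pow, map_pow, map_pow, hn1, hn2, hn3]
  have hsym : ∀ y : ℕ, y.Prime → y ∣ a → p0 ≠ y →
      (if p1 = y then (-1 : ℤ) else 1) ^ i * ((if p2 = y then (-1 : ℤ) else 1) ^ j *
        (if p3 = y then (-1 : ℤ) else 1) ^ k) = 1 := by
    intro y hy hya h0y
    have hval : jacobiSym ((l1 ^ i * (l2 ^ j * l3 ^ k) : ℕ) : ℤ) y =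
        (if p1 = y then (-1 : ℤ) else 1) ^ i * ((if p2 = y then (-1 : ℤ) else 1) ^ j *
        (if p3 = y then (-1 : ℤ) else 1) ^ k) := by
      rw [Nat.cast_mul, Nat.cast_mul, Nat.cast_pow, Nat.cast_pow, Nat.cast_pow,
        jacobiSym.mul_left, jacobiSym.mul_left, jacobiSym.pow_left, jacobiSym.pow_left,
        jacobiSym.pow_left, hj1 y hy hya h0y, hj2 y hy hya h0y, hj3 y hy hya h0y]
    rw [← hval]
    refine fkd_sym hF hf hsf ha hya (hq y hy hya) hprin hn ?_
    rw [hval]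
    have hne : ∀ (c : Prop) [Decidable c] (n : ℕ), (if c then (-1 : ℤ) else 1) ^ n ≠ 0 := by
      intro c _ n
      apply pow_ne_zero
      split_ifs <;> norm_num
    exact mul_ne_zero (hne _ _) (mul_ne_zero (hne _ _) (hne _ _))
  have hev : ∀ n : ℕ, (-1 : ℤ) ^ n = 1 → Even n := by
    intro n hn
    by_contra ho
    rw [Nat.not_even_iff_odd] at ho
    rw [ho.neg_one_pow] at hn
    norm_num at hn
  refine ⟨hev i ?_, hev j ?_, hev k ?_⟩
  · have := hsym p1 hp1 hd1 h01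
    rw [if_pos rfl, if_neg h12.symm, if_neg h13.symm, one_pow, one_pow, mul_one, mul_one] at this
    exact this
  · have := hsym p2 hp2 hd2 h02
    rw [if_neg h12, if_pos rfl, if_neg h23.symm, one_pow, one_pow, mul_one, one_mul] at this
    exact this
  · have := hsym p3 hp3 hd3 h03
    rw [if_neg h13, if_neg h23, if_pos rfl, one_pow, one_pow, one_mul, one_mul] at this
    exact this

end Pool.Agent.Work.MP_8efaaa_nt.Rg
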