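import Mathlib
import Pool.Agent.Work.MP_8efaaa_nt.Rg.Defs
import Pool.Agent.Work.MP_8efaaa_nt.Rg.KOut
import Pool.Agent.Work.MP_8efaaa_nt.Rg.FSg
import Pool.Agent.Work.MP_8efaaa_nt.Rg.FKb
import Pool.Agent.Work.MP_8efaaa_nt.Rg.FKc
import Pool.Agent.Work.MP_8efaaa_nt.Rg.FKd

/-!
# Module Reflb: the second reflection theorem
-/

set_option autoImplicit false

namespace Pool.Agent.Work.MP_8efaaa_nt.Rg

open NumberField Pool.Agent.Work.MP_8efaaa_nt.R Pool.Agent.Work.MP_8efaaa_nt.Rf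

universe u

theorem reflb {K : Type u} [Field K] [NumberField K] {a : ℕ} {s : K} (hb : Base5 K a s)
    {F : Type*} [Field F] [NumberField F] {f : F} (hF : Module.finrank ℚ F = 2)
    (hf : f ^ 2 = (a : F)) {w : 𝓞 F} (hw : Algebra.norm ℤ w = -1) (h8 : ¬ 8 ∣ classNumber F) :
    ∃ b : Ideal (𝓞 K), OddI b ∧
      ∀ x y : ℤ, ∀ δ : 𝓞 K, algebraMap (𝓞 K) K δ = x + 4 * y * s →
        b ^ (Fintype.card (ClassGroup (𝓞 K)) / 2) = Ideal.span {δ} → e8 (x + 4 * y) = -1 := by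
  classical
  by_contra hno
  have hno' : ∀ b : Ideal (𝓞 K), OddI b → ∃ x y : ℤ, ∃ δ : 𝓞 K,
      algebraMap (𝓞 K) K δ = x + 4 * y * s ∧
      b ^ (Fintype.card (ClassGroup (𝓞 K)) / 2) = Ideal.span {δ} ∧ ¬ e8 (x + 4 * y) = -1 := by
    intro c hc
    by_contra hcon
    apply hno
    refine ⟨c, hc, fun x y δ h1 h2 => ?_⟩
    by_contra h3
    exact hcon ⟨x, y, δ, h1, h2, h3⟩
  obtain ⟨U, V, hU⟩ := neg_pell hF hf hb.sf hb.mod hw
  have hq := primes_one hb.mod hU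
  by_cases h4 : 4 < (dv a).card
  · exact h8 (k_four hF hf hb.sf hb.mod hq h4)
  obtain ⟨⟨d, e, hde, hd8, hd1, x, y, z, hc, hxy⟩, h2⟩ := k_out hb hq hno' (by omega)
  by_cases h3 : 3 ≤ (dv a).card
  · exact h8 (k_three hF hf hb.sf hb.mod hU h3 hde hd8 hd1 hc hxy)
  obtain ⟨d, e, hde, hd8, hd1, x, y, z, hc, hxy, hx, -⟩ := h2 (by omega)
  exact h8 (k_two hF hf hb.sf hb.mod hU (by omega) hde hd8 hd1 hc hxy hx)

end Pool.Agent.Work.MP_8efaaa_nt.Rg
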